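import Mathlib

/-! Bounded measurable functions, swapping and shifting of integrals, for closed curves. -/

open MeasureTheory Complex Set
open scoped Real ComplexConjugate

namespace Pool.Agent.Q83.Curve

/-- bounded measurable -/
def BM {X : Type*} [MeasurableSpace X] (f : X → ℂ) : Prop :=
  Measurable f ∧ ∃ C : ℝ, ∀ x, ‖f x‖ ≤ C

section BM
variable {X Y : Type*} [MeasurableSpace X] [MeasurableSpace Y] {f g : X → ℂ}

lemma BM.bound (hf : BM f) : ∃ C : ℝ, 0 ≤ C ∧ ∀ x, ‖f x‖ ≤ C := by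
  obtain ⟨_, C, hC⟩ := hf
  exact ⟨max C 0, le_max_right _ _, fun x => (hC x).trans (le_max_left _ _)⟩

lemma BM.mul (hf : BM f) (hg : BM g) : BM (fun x => f x * g x) := by
  obtain ⟨C, hC0, hC⟩ := hf.bound
  obtain ⟨D, hD0, hD⟩ := hg.bound
  refine ⟨hf.1.mul hg.1, C * D, fun x => ?_⟩
  rw [norm_mul]
  exact mul_le_mul (hC x) (hD x) (norm_nonneg _) hC0

lemma BM.add (hf : BM f) (hg : BM g) : BM (fun x => f x + g x) := by
  obtain ⟨C, hC0, hC⟩ := hf.bound
  obtain ⟨D, hD0, hD⟩ := hg.bound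
  exact ⟨hf.1.add hg.1, C + D, fun x => (norm_add_le _ _).trans (add_le_add (hC x) (hD x))⟩

lemma BM.sub (hf : BM f) (hg : BM g) : BM (fun x => f x - g x) := by
  obtain ⟨C, hC0, hC⟩ := hf.bound
  obtain ⟨D, hD0, hD⟩ := hg.bound
  exact ⟨hf.1.sub hg.1, C + D, fun x => (norm_sub_le _ _).trans (add_le_add (hC x) (hD x))⟩

lemma BM.const (c : ℂ) : BM (fun _ : X => c) := ⟨measurable_const, ‖c‖, fun _ => le_rfl⟩

lemma BM.comp {f : Y → ℂ} (hf : BM f) {u : X → Y} (hu : Measurable u) :
    BM (fun x => f (u x)) := by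
  obtain ⟨C, hC0, hC⟩ := hf.bound
  exact ⟨hf.1.comp hu, C, fun x => hC _⟩

lemma BM.conj (hf : BM f) : BM (fun x => conj (f x)) := by
  obtain ⟨C, hC0, hC⟩ := hf.bound
  exact ⟨Complex.continuous_conj.measurable.comp hf.1, C, fun x => by
    rw [RCLike.norm_conj]; exact hC x⟩

lemma BM.re (hf : BM f) : BM (fun x => ((f x).re : ℂ)) := by
  obtain ⟨C, hC0, hC⟩ := hf.bound
  refine ⟨Complex.measurable_ofReal.comp (Complex.measurable_re.comp hf.1), C, fun x => ?_⟩
  rw [Complex.norm_real, Real.norm_eq_abs]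
  exact (Complex.abs_re_le_norm _).trans (hC x)

lemma BM.im (hf : BM f) : BM (fun x => ((f x).im : ℂ)) := by
  obtain ⟨C, hC0, hC⟩ := hf.bound
  refine ⟨Complex.measurable_ofReal.comp (Complex.measurable_im.comp hf.1), C, fun x => ?_⟩
  rw [Complex.norm_real, Real.norm_eq_abs]
  exact (Complex.abs_im_le_norm _).trans (hC x)

lemma BM.integrable (hf : BM f) (μ : Measure X) [IsFiniteMeasure μ] : Integrable f μ := by
  obtain ⟨C, hC0, hC⟩ := hf.bound
  exact Integrable.of_bound hf.1.aestronglyMeasurable C (Filter.Eventually.of_forall hC)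

end BM

lemma BM.ii {f : ℝ → ℂ} (hf : BM f) (a b : ℝ) : IntervalIntegrable f volume a b := by
  rw [intervalIntegrable_iff]
  have : IsFiniteMeasure (volume.restrict (uIoc a b)) := by
    constructor
    rw [Measure.restrict_apply_univ, uIoc]
    exact measure_Ioc_lt_top
  exact hf.integrable _

lemma finite_box (a b c d : ℝ) : IsFiniteMeasure ((volume : Measure (ℝ × ℝ)).restrict
    (uIoc a b ×ˢ uIoc c d)) := by
  constructor
  rw [Measure.restrict_apply_univ, Measure.volume_eq_prod, Measure.prod_prod]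
  exact ENNReal.mul_lt_top (by rw [uIoc]; exact measure_Ioc_lt_top)
    (by rw [uIoc]; exact measure_Ioc_lt_top)

lemma BM.swap {F : ℝ → ℝ → ℂ} (hF : BM (Function.uncurry F)) (a b c d : ℝ) :
    ∫ x in a..b, ∫ y in c..d, F x y = ∫ y in c..d, ∫ x in a..b, F x y := by
  apply intervalIntegral_intervalIntegral_swap
  have := finite_box a b c d
  exact hF.integrable _

lemma BM.swapν {Y : Type*} [MeasurableSpace Y] {F : ℝ → Y → ℂ} (hF : BM (Function.uncurry F))
    (ν : Measure Y) [IsFiniteMeasure ν] (a b : ℝ) :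
    ∫ x in a..b, (∫ y, F x y ∂ν) = ∫ y, (∫ x in a..b, F x y) ∂ν := by
  apply intervalIntegral_integral_swap
  have : IsFiniteMeasure (volume.restrict (uIoc a b)) := by
    constructor
    rw [Measure.restrict_apply_univ, uIoc]
    exact measure_Ioc_lt_top
  exact hF.integrable _

lemma BM.innerν {X Y : Type*} [MeasurableSpace X] [MeasurableSpace Y] {F : X → Y → ℂ}
    (hF : BM (Function.uncurry F)) (ν : Measure Y) [IsFiniteMeasure ν] :
    BM (fun x => ∫ y, F x y ∂ν) := by
  obtain ⟨C, hC0, hC⟩ := hF.bound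
  refine ⟨(hF.1.stronglyMeasurable.integral_prod_right (ν := ν)).measurable,
    C * (ν univ).toReal, fun x => ?_⟩
  refine (norm_integral_le_of_norm_le_const (Filter.Eventually.of_forall fun y => hC (x, y))).trans
    (le_of_eq rfl)

lemma BM.inner {Y : Type*} [MeasurableSpace Y] {F : Y → ℝ → ℂ} (hF : BM (Function.uncurry F))
    (a b : ℝ) : BM (fun x => ∫ y in a..b, F x y) := by
  obtain ⟨C, hC0, hC⟩ := hF.bound
  refine ⟨?_, C * |b - a|, fun x => ?_⟩
  · have h1 : StronglyMeasurable (fun x => ∫ y in Ioc a b, F x y) :=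
      hF.1.stronglyMeasurable.integral_prod_right
    have h2 : StronglyMeasurable (fun x => ∫ y in Ioc b a, F x y) :=
      hF.1.stronglyMeasurable.integral_prod_right
    exact (h1.sub h2).measurable
  · exact intervalIntegral.norm_integral_le_of_norm_le_const fun y _ => hC (x, y)

lemma shift_one {f : ℝ → ℂ} (hf : Function.Periodic f 1) (a : ℝ) :
    ∫ s in (0 : ℝ)..1, f (s - a) = ∫ s in (0 : ℝ)..1, f s := by
  rw [intervalIntegral.integral_comp_sub_right]
  have := hf.intervalIntegral_add_eq (0 - a) 0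
  rw [zero_add] at this
  rw [← this]
  congr 1
  ring

/-- Changing the base point from `s` to `t = s + tau` for an invariant kernel. -/
lemma shift_two {F : ℝ → ℝ → ℂ} (hF : BM (Function.uncurry F))
    (hp : ∀ s t, F (s + 1) (t + 1) = F s t) (c : ℝ) :
    ∫ s in (0 : ℝ)..1, ∫ τ in (0 : ℝ)..c, F s (s + τ)
      = ∫ t in (0 : ℝ)..1, ∫ τ in (0 : ℝ)..c, F (t - τ) t := by
  have h1 : BM (Function.uncurry fun s τ : ℝ => F s (s + τ)) :=
    hF.comp (u := fun p : ℝ × ℝ => (p.1, p.1 + p.2)) (by fun_prop)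
  have h2 : BM (Function.uncurry fun t τ : ℝ => F (t - τ) t) :=
    hF.comp (u := fun p : ℝ × ℝ => (p.1 - p.2, p.1)) (by fun_prop)
  rw [h1.swap, h2.swap]
  apply intervalIntegral.integral_congr
  intro τ _
  simp only
  have hper : Function.Periodic (fun s => F s (s + τ)) 1 := by
    intro s
    simp only
    rw [show s + 1 + τ = s + τ + 1 by ring]
    exact hp _ _
  have := shift_one hper τ
  simp only [sub_add_cancel] at this
  exact this.symm

end Pool.Agent.Q83.Curve
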