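import Pool.Agent.Q83.Curve.Rep

open MeasureTheory Complex Set
open scoped Real ComplexConjugate

namespace Pool.Agent.Q83.Curve

lemma C1.mono {g g1 g2 : ℂ → ℂ} {r r' : ℝ} (h : C1 g g1 g2 r) (hr : r ≤ r') : C1 g g1 g2 r' :=
  ⟨h.der, h.c1, h.c2, fun x hx => h.zero x (hr.trans hx), fun x hx => h.zero1 x (hr.trans hx),
    fun x hx => h.zero2 x (hr.trans hx)⟩

lemma ee_fderiv (w x : ℂ) :
    HasFDerivAt (ee w) (Complex.reCLM.smulRight (2 * π * I * w.re * ee w x)
      + Complex.imCLM.smulRight (2 * π * I * w.im * ee w x)) x := by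
  have hre : HasFDerivAt (fun x : ℂ => x.re) Complex.reCLM x := Complex.reCLM.hasFDerivAt
  have him : HasFDerivAt (fun x : ℂ => x.im) Complex.imCLM x := Complex.imCLM.hasFDerivAt
  have h1 := (hre.const_mul w.re).add (him.const_mul w.im)
  have h2 := (Complex.ofRealCLM.hasFDerivAt.comp x h1).const_mul (2 * π * I)
  have h3 := h2.cexp
  refine (h3.congr_fderiv ?_).congr_of_eventuallyEq ?_
  · apply ContinuousLinearMap.ext
    intro z
    simp [ee]
    ring
  · apply Filter.Eventually.of_forall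
    intro y
    simp [ee]

lemma aw_C1 {ε : ℝ} (hε : 0 < ε) (w : ℂ) :
    C1 (aw ε w) (fun x => bmp1 ε x * ee w x + bmp ε x * (2 * π * I * w.re * ee w x))
      (fun x => bmp2 ε x * ee w x + bmp ε x * (2 * π * I * w.im * ee w x)) ε := by
  have hb := bmp_C1 hε
  have hbc := hb.cont
  have hbc1 := hb.c1
  have hbc2 := hb.c2
  have hec := ee_cont w
  refine ⟨fun x => ?_, by fun_prop, by fun_prop, fun x hx => ?_, fun x hx => ?_, fun x hx => ?_⟩
  · have h := (hb.der x).mul (ee_fderiv w x)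
    refine h.congr_fderiv ?_
    apply ContinuousLinearMap.ext
    intro z
    simp
    ring
  · unfold aw; rw [hb.zero x hx, zero_mul]
  · rw [hb.zero x hx, hb.zero1 x hx]; ring
  · rw [hb.zero x hx, hb.zero2 x hx]; ring

lemma aw_int_real (ε : ℝ) (w : ℂ) : conj (∫ x, aw ε w x) = ∫ x, aw ε w x := by
  rw [← integral_conj, ← integral_neg_eq_self (fun x => aw ε w x)]
  congr 1
  funext x
  unfold aw
  rw [map_mul, bmp_conj, bmp_even, ee_neg]

lemma aw_int_ne {ε : ℝ} (hε : 0 < ε) (w : ℂ) (hw : ‖w‖ * ε < 1 / 4) :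
    (∫ x, aw ε w x) ≠ 0 := by
  have hcont : Continuous (aw ε w) := (aw_C1 hε w).cont
  have hsupp : HasCompactSupport (aw ε w) := by
    apply HasCompactSupport.of_support_subset_isCompact (isCompact_closedBall (0 : ℂ) ε)
    intro x hx
    by_contra hx'
    simp only [Metric.mem_closedBall, dist_zero_right, not_le] at hx'
    exact hx (aw_zero hε w x hx'.le)
  have hint : Integrable (aw ε w) := hcont.integrable_of_hasCompactSupport hsupp
  have hre : (∫ x, aw ε w x).re = ∫ x, (aw ε w x).re := by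
    have := Complex.reCLM.integral_comp_comm hint
    simpa using this.symm
  have hpos : 0 < ∫ x, (aw ε w x).re := by
    apply Continuous.integral_pos_of_hasCompactSupport_nonneg_nonzero (x := 0)
    · exact Complex.continuous_re.comp hcont
    · exact hsupp.comp_left (g := Complex.re) (by simp)
    · intro x
      by_cases hx : ε ≤ ‖x‖
      · simp [aw_zero hε w x hx]
      · push Not at hx
        have hθ : |w.re * x.re + w.im * x.im| ≤ ‖w‖ * ‖x‖ := by
          have h1 : (w * conj x).re = w.re * x.re + w.im * x.im := by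
            simp [Complex.mul_re]
          rw [← h1]
          refine (Complex.abs_re_le_norm _).trans ?_
          rw [norm_mul, RCLike.norm_conj]
        have h2 : ‖w‖ * ‖x‖ ≤ ‖w‖ * ε := mul_le_mul_of_nonneg_left hx.le (norm_nonneg _)
        have h3 : |2 * π * (w.re * x.re + w.im * x.im)| < π / 2 := by
          rw [abs_mul, abs_of_pos (by positivity : (0 : ℝ) < 2 * π)]
          have := Real.pi_pos
          nlinarith
        rw [abs_lt] at h3
        have h4 : 0 < Real.cos (2 * π * (w.re * x.re + w.im * x.im)) :=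
          Real.cos_pos_of_mem_Ioo ⟨by linarith [h3.1], h3.2⟩
        show 0 ≤ (aw ε w x).re
        unfold aw ee bmp
        rw [show (2 * π * I * ((w.re * x.re + w.im * x.im : ℝ) : ℂ))
          = ((2 * π * (w.re * x.re + w.im * x.im) : ℝ) : ℂ) * I by push_cast; ring,
          Complex.re_ofReal_mul, Complex.exp_ofReal_mul_I_re]
        positivity
    · simp [aw, ee, bmp]
  intro h
  rw [h] at hre
  simp at hre
  linarith

variable {ι : Type*} {ζ T : ℝ → ℂ} {S : Set ℝ} {r : ℝ} {w : ι → ℂ} {A : ℝ}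

lemma IF_Gw (L : Loop ζ T S r) {ε : ℝ} (hε : 0 < ε) (w : ℂ) :
    2 * I * IF ζ T (Gw ε w) = ZZ ζ ε (fun t => conj (T t)) T w
      - ZZ ζ ε T (fun t => conj (T t)) w := by
  have hζ := L.cont
  have bG : BM (fun q : ℝ × ℝ => Gw ε w (ζ (q.1 + q.2) - ζ q.1)) :=
    (Gw_bm hε w).comp (by fun_prop)
  have bT1 : BM (fun q : ℝ × ℝ => T q.1) := L.Tbm.comp (by fun_prop)
  have bT2 : BM (fun q : ℝ × ℝ => T (q.1 + q.2)) := L.Tbm.comp (by fun_prop)
  have b1 : BM (Function.uncurry fun s τ : ℝ =>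
      (T (s + τ) - T s) * (conj (T s) * Gw ε w (ζ (s + τ) - ζ s))) :=
    (bT2.sub bT1).mul (bT1.conj.mul bG)
  have b2 : BM (Function.uncurry fun s τ : ℝ =>
      (conj (T (s + τ)) - conj (T s)) * (T s * Gw ε w (ζ (s + τ) - ζ s))) :=
    (bT2.conj.sub bT1.conj).mul (bT1.mul bG)
  unfold IF ZZ
  rw [← intervalIntegral.integral_const_mul,
    ← intervalIntegral.integral_sub ((b1.inner _ _).ii _ _) ((b2.inner _ _).ii _ _)]
  apply intervalIntegral.integral_congr
  intro s _
  simp only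
  have i1 : IntervalIntegrable (fun τ : ℝ =>
      (T (s + τ) - T s) * (conj (T s) * Gw ε w (ζ (s + τ) - ζ s))) volume 0 (1 / 2) :=
    (b1.comp (u := fun τ : ℝ => (s, τ)) (by fun_prop)).ii _ _
  have i2 : IntervalIntegrable (fun τ : ℝ =>
      (conj (T (s + τ)) - conj (T s)) * (T s * Gw ε w (ζ (s + τ) - ζ s))) volume 0 (1 / 2) :=
    (b2.comp (u := fun τ : ℝ => (s, τ)) (by fun_prop)).ii _ _
  rw [← intervalIntegral.integral_const_mul, ← intervalIntegral.integral_sub i1 i2]
  apply intervalIntegral.integral_congr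
  intro τ _
  simp only
  generalize T (s + τ) = b
  generalize T s = a
  have key : 2 * I * cr a b = conj a * (b - a) - a * (conj b - conj a) := by
    apply Complex.ext
    · simp [cr, Complex.mul_re, Complex.mul_im]
      ring
    · simp [cr, Complex.mul_re, Complex.mul_im]
      ring
  calc 2 * I * (cr a b * Gw ε w (ζ (s + τ) - ζ s))
      = (2 * I * cr a b) * Gw ε w (ζ (s + τ) - ζ s) := by ring
    _ = _ := by rw [key]; ring

/-- **Core theorem.** No closed plane loop with velocity of bounded variation admits a tight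
frame of exponentials. -/
theorem core [Countable ι] [Nonempty ι] (L : Loop ζ T S r) (h : Tight ζ w A)
    {m : ℝ → ℂ} {n : ℕ} {J : ℕ → ℂ} {c : ℕ → ℝ} (hrep : Rep T m n J c) : False := by
  obtain ⟨i0⟩ := (inferInstance : Nonempty ι)
  have hr := L.rpos
  obtain ⟨ε, hε, hε1, hε2⟩ : ∃ ε : ℝ, 0 < ε ∧ ε ≤ r / 2 ∧ ‖w i0‖ * ε < 1 / 4 := by
    refine ⟨min (r / 2) (1 / (8 * (‖w i0‖ + 1))), by positivity, min_le_left _ _, ?_⟩
    have h1 : min (r / 2) (1 / (8 * (‖w i0‖ + 1))) ≤ 1 / (8 * (‖w i0‖ + 1)) := min_le_right _ _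
    have h2 : ‖w i0‖ * min (r / 2) (1 / (8 * (‖w i0‖ + 1)))
        ≤ ‖w i0‖ * (1 / (8 * (‖w i0‖ + 1))) := mul_le_mul_of_nonneg_left h1 (norm_nonneg _)
    have h3 : ‖w i0‖ * (1 / (8 * (‖w i0‖ + 1))) < 1 / 4 := by
      rw [mul_one_div, div_lt_div_iff₀ (by positivity) (by norm_num)]
      have := norm_nonneg (w i0)
      linarith
    linarith
  have hTc : Function.Periodic (fun t => conj (T t)) 1 := fun t => by simp only [L.Tper t]
  have s1 := ZZ_sum L h hε (by linarith) L.Tbm.conj hTc hrep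
  have s2 := ZZ_sum L h hε (by linarith) L.Tbm L.Tper hrep.conj
  have s3 := s1.sub s2
  simp only [← IF_Gw L hε, sub_zero] at s3
  -- the functional on self-convolutions
  have key : ∀ i, IF ζ T (Gw ε (w i)) * ∫ v, bmp (r / 2) v
      = IF ζ T (bmp (r / 2)) * (((∫ v, aw ε (w i) v).re ^ 2 : ℝ) : ℂ) := by
    intro i
    have c1 := (aw_C1 hε (w i)).mono hε1
    have c2 := bmp_C1 (ρ := r / 2) (by linarith)
    have k1 : IF ζ T (Gw ε (w i)) = IF ζ T (aw ε (w i)) * ∫ v, aw ε (w i) v :=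
      IF_avg L c1 c1.bm c1.zero
    have k2 := IF_prop L c1 c2
    have hreal : (∫ v, aw ε (w i) v) = (((∫ v, aw ε (w i) v).re : ℝ) : ℂ) :=
      (Complex.conj_eq_iff_re.1 (aw_int_real ε (w i))).symm
    rw [k1]
    calc IF ζ T (aw ε (w i)) * (∫ v, aw ε (w i) v) * ∫ v, bmp (r / 2) v
        = (IF ζ T (aw ε (w i)) * ∫ v, bmp (r / 2) v) * (∫ v, aw ε (w i) v) := by ring
      _ = (IF ζ T (bmp (r / 2)) * ∫ v, aw ε (w i) v) * (∫ v, aw ε (w i) v) := by rw [k2]
      _ = IF ζ T (bmp (r / 2)) * ((∫ v, aw ε (w i) v) * (∫ v, aw ε (w i) v)) := by ring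
      _ = _ := by
        congr 1
        generalize (∫ v, aw ε (w i) v) = z at hreal
        rw [hreal]
        simp only [Complex.ofReal_re]
        push_cast
        ring
  have hne := IF_bmp_ne L (ρ := r / 2) (by linarith) (by linarith)
  have s4 := (s3.mul_left (1 / (2 * I * IF ζ T (bmp (r / 2))))).mul_right (∫ v, bmp (r / 2) v)
  have e4 : ∀ i, 1 / (2 * I * IF ζ T (bmp (r / 2))) * (2 * I * IF ζ T (Gw ε (w i)))
      * (∫ v, bmp (r / 2) v) = (((∫ v, aw ε (w i) v).re ^ 2 : ℝ) : ℂ) := by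
    intro i
    have hI : (2 * I : ℂ) ≠ 0 := by simp
    calc 1 / (2 * I * IF ζ T (bmp (r / 2))) * (2 * I * IF ζ T (Gw ε (w i)))
          * (∫ v, bmp (r / 2) v)
        = 1 / (2 * I * IF ζ T (bmp (r / 2))) * (2 * I)
          * (IF ζ T (Gw ε (w i)) * (∫ v, bmp (r / 2) v)) := by ring
      _ = 1 / (2 * I * IF ζ T (bmp (r / 2))) * (2 * I)
          * (IF ζ T (bmp (r / 2)) * (((∫ v, aw ε (w i) v).re ^ 2 : ℝ) : ℂ)) := by rw [key i]
      _ = _ := by field_simp
  simp only [e4, mul_zero, zero_mul] at s4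
  have s5 : HasSum (fun i => (∫ v, aw ε (w i) v).re ^ 2) 0 := by
    have := Complex.hasSum_re s4
    simpa only [Complex.ofReal_re, Complex.zero_re] using this
  have s6 := (hasSum_zero_iff_of_nonneg (fun i => sq_nonneg _)).1 s5
  have s7 := congrFun s6 i0
  simp only [Pi.zero_apply] at s7
  have s8 : (∫ v, aw ε (w i0) v).re = 0 := by
    exact pow_eq_zero_iff (two_ne_zero) |>.1 s7
  apply aw_int_ne hε (w i0) hε2
  have hreal : (∫ v, aw ε (w i0) v) = (((∫ v, aw ε (w i0) v).re : ℝ) : ℂ) :=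
    (Complex.conj_eq_iff_re.1 (aw_int_real ε (w i0))).symm
  rw [hreal, s8]
  simp

end Pool.Agent.Q83.Curve
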