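import Pool.Agent.Q83.Curve.Winding

open MeasureTheory Complex Set
open scoped Real ComplexConjugate

namespace Pool.Agent.Q83.Curve

/-- the character `x ↦ exp(2 pi i <w,x>)` of the plane -/
noncomputable def ee (w x : ℂ) : ℂ :=
  Complex.exp (2 * π * I * ((w.re * x.re + w.im * x.im : ℝ) : ℂ))

lemma ee_norm (w x : ℂ) : ‖ee w x‖ = 1 := by
  unfold ee
  rw [show (2 * π * I * ((w.re * x.re + w.im * x.im : ℝ) : ℂ))
    = ((2 * π * (w.re * x.re + w.im * x.im) : ℝ) : ℂ) * I by push_cast; ring]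
  exact Complex.norm_exp_ofReal_mul_I _

lemma ee_cont (w : ℂ) : Continuous (ee w) := by
  unfold ee; fun_prop

lemma ee_add (w x y : ℂ) : ee w (x + y) = ee w x * ee w y := by
  unfold ee
  rw [← Complex.exp_add]
  congr 1
  simp only [Complex.add_re, Complex.add_im]
  push_cast
  ring

lemma ee_neg (w x : ℂ) : ee w (-x) = conj (ee w x) := by
  unfold ee
  rw [← Complex.exp_conj]
  congr 1
  simp only [Complex.neg_re, Complex.neg_im, map_mul, Complex.conj_I, Complex.conj_ofReal]
  have : conj (2 : ℂ) = 2 := Complex.conj_ofNat 2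
  rw [this]
  push_cast
  ring

lemma ee_sub (w x y : ℂ) : ee w (x - y) = ee w x * conj (ee w y) := by
  rw [sub_eq_add_neg, ee_add, ee_neg]

lemma ee_bm (w : ℂ) : BM (ee w) := ⟨(ee_cont w).measurable, 1, fun x => (ee_norm w x).le⟩

/-- The tight frame identity in the curve parameter. -/
def Tight {ι : Type*} (ζ : ℝ → ℂ) (w : ι → ℂ) (A : ℝ) : Prop :=
  ∀ f : ℝ → ℂ, BM f → HasSum (fun i => ‖∫ t in (0 : ℝ)..1, f t * conj (ee (w i) (ζ t))‖ ^ 2)
    (A * ∫ t in (0 : ℝ)..1, ‖f t‖ ^ 2)

variable {ι : Type*} {ζ T : ℝ → ℂ} {S : Set ℝ} {r : ℝ} {w : ι → ℂ} {A : ℝ}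

lemma Tight.window (L : Loop ζ T S r) (h : Tight ζ w A) (a : ℝ) {f : ℝ → ℂ} (hf : BM f) :
    HasSum (fun i => ‖∫ t in a..(a + 1), f t * conj (ee (w i) (ζ t))‖ ^ 2)
      (A * ∫ t in a..(a + 1), ‖f t‖ ^ 2) := by
  set g : ℝ → ℂ := fun t => f (a + Int.fract (t - a)) with hg
  have hgb : BM g := hf.comp (by fun_prop)
  have hgper : Function.Periodic g 1 := by
    intro t
    simp only [hg]
    rw [show t + 1 - a = (t - a) + 1 by ring, Int.fract_add_one]
  have hgeq : ∀ t ∈ Ico a (a + 1), g t = f t := by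
    intro t ht
    simp only [hg]
    rw [Int.fract_eq_self.2 ⟨by linarith [ht.1], by linarith [ht.2]⟩]
    ring_nf
  have key := h g hgb
  have e1 : ∀ i, (∫ t in (0 : ℝ)..1, g t * conj (ee (w i) (ζ t)))
      = ∫ t in a..(a + 1), f t * conj (ee (w i) (ζ t)) := by
    intro i
    have hper : Function.Periodic (fun t => g t * conj (ee (w i) (ζ t))) 1 := by
      intro t
      simp only [hgper t, L.per t]
    have h1 := hper.intervalIntegral_add_eq 0 a
    rw [zero_add] at h1
    rw [h1]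
    rw [intervalIntegral.integral_of_le (by linarith), intervalIntegral.integral_of_le
      (by linarith), ← integral_Ico_eq_integral_Ioc, ← integral_Ico_eq_integral_Ioc]
    exact setIntegral_congr_fun measurableSet_Ico fun t ht => by simp only [hgeq t ht]
  have e2 : (∫ t in (0 : ℝ)..1, ‖g t‖ ^ 2) = ∫ t in a..(a + 1), ‖f t‖ ^ 2 := by
    have hper : Function.Periodic (fun t => ‖g t‖ ^ 2) 1 := by
      intro t
      simp only [hgper t]
    have h1 := hper.intervalIntegral_add_eq 0 a
    rw [zero_add] at h1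
    rw [h1]
    rw [intervalIntegral.integral_of_le (by linarith), intervalIntegral.integral_of_le
      (by linarith), ← integral_Ico_eq_integral_Ioc, ← integral_Ico_eq_integral_Ioc]
    exact setIntegral_congr_fun measurableSet_Ico fun t ht => by simp only [hgeq t ht]
  simp only [e1, e2] at key
  exact key

lemma polar (X Y : ℂ) : ‖X + Y‖ ^ 2 - ‖X‖ ^ 2 - ‖Y‖ ^ 2 = 2 * (X * conj Y).re := by
  rw [← Complex.normSq_eq_norm_sq, ← Complex.normSq_eq_norm_sq, ← Complex.normSq_eq_norm_sq,
    Complex.normSq_add]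
  ring

lemma BM.normsq_ii {f : ℝ → ℂ} (hf : BM f) (a b : ℝ) :
    IntervalIntegrable (fun t => ‖f t‖ ^ 2) volume a b := by
  have h := ((hf.mul hf.conj).ii a b).norm
  refine h.congr (fun t _ => ?_)
  show ‖f t * conj (f t)‖ = ‖f t‖ ^ 2
  rw [norm_mul, RCLike.norm_conj]
  ring

/-- Orthogonality of functions with disjoint supports. -/
lemma Tight.ortho (L : Loop ζ T S r) (h : Tight ζ w A) (a : ℝ) {f g : ℝ → ℂ} (hf : BM f)
    (hg : BM g) (hfg : ∀ t, f t = 0 ∨ g t = 0) :
    HasSum (fun i => (∫ t in a..(a + 1), f t * conj (ee (w i) (ζ t)))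
      * conj (∫ t in a..(a + 1), g t * conj (ee (w i) (ζ t)))) 0 := by
  have hζ := L.cont
  have key : ∀ c : ℂ, ‖c‖ = 1 → HasSum (fun i => ((∫ t in a..(a + 1), f t * conj (ee (w i) (ζ t)))
      * conj (c * ∫ t in a..(a + 1), g t * conj (ee (w i) (ζ t)))).re) 0 := by
    intro c hc
    have hcg : BM (fun t => c * g t) := (BM.const c).mul hg
    have s1 := h.window L a (hf.add hcg)
    have s2 := h.window L a hf
    have s3 := h.window L a hcg
    have s4 := (s1.sub s2).sub s3
    have hint : ∀ i, ∀ {u : ℝ → ℂ}, BM u →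
        IntervalIntegrable (fun t => u t * conj (ee (w i) (ζ t))) volume a (a + 1) := by
      intro i u hu
      exact (hu.mul ((ee_bm (w i)).comp (u := ζ) hζ.measurable).conj).ii _ _
    have e1 : ∀ i, (∫ t in a..(a + 1), (f t + c * g t) * conj (ee (w i) (ζ t)))
        = (∫ t in a..(a + 1), f t * conj (ee (w i) (ζ t)))
          + c * ∫ t in a..(a + 1), g t * conj (ee (w i) (ζ t)) := by
      intro i
      rw [← intervalIntegral.integral_const_mul, ← intervalIntegral.integral_add (hint i hf)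
        ((hint i hg).const_mul c)]
      apply intervalIntegral.integral_congr
      intro t _
      simp only
      ring
    have e2 : ∀ i, (∫ t in a..(a + 1), (c * g t) * conj (ee (w i) (ζ t)))
        = c * ∫ t in a..(a + 1), g t * conj (ee (w i) (ζ t)) := by
      intro i
      rw [← intervalIntegral.integral_const_mul]
      apply intervalIntegral.integral_congr
      intro t _
      simp only
      ring
    simp only [e1, e2, polar] at s4
    have e3 : (∫ t in a..(a + 1), ‖f t + c * g t‖ ^ 2)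
        = (∫ t in a..(a + 1), ‖f t‖ ^ 2) + ∫ t in a..(a + 1), ‖c * g t‖ ^ 2 := by
      rw [← intervalIntegral.integral_add (hf.normsq_ii _ _) (hcg.normsq_ii _ _)]
      apply intervalIntegral.integral_congr
      intro t _
      simp only
      rcases hfg t with h0 | h0
      · simp [h0]
      · simp [h0]
    rw [e3] at s4
    have e4 : ∀ x y : ℝ, A * (x + y) - A * x - A * y = 0 := by intro x y; ring
    rw [e4] at s4
    have s5 := s4.mul_left (1 / 2)
    have e5 : ∀ x : ℝ, 1 / 2 * (2 * x) = x := by intro x; ring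
    simp only [e5, mul_zero] at s5
    exact s5
  have k1 := key 1 (by simp)
  have k2 := key I (by simp)
  simp only [one_mul] at k1
  have e6 : ∀ X Y : ℂ, (X * conj (I * Y)).re = (X * conj Y).im := by
    intro X Y
    simp only [map_mul, Complex.conj_I]
    simp [Complex.mul_re, Complex.mul_im]
    ring
  simp only [e6] at k2
  have k3 := (Complex.hasSum_ofReal.2 k1).add ((Complex.hasSum_ofReal.2 k2).mul_right I)
  simp only [Complex.re_add_im, Complex.ofReal_zero, zero_mul, add_zero] at k3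
  exact k3

/-- Version with windows on both sides of `p`. -/
lemma Tight.two_sides (L : Loop ζ T S r) (h : Tight ζ w A) (p : ℝ) {f g : ℝ → ℂ} (hf : BM f)
    (hg : BM g) :
    HasSum (fun i => (∫ u in (0 : ℝ)..(1 / 4), f (p - u) * conj (ee (w i) (ζ (p - u))))
      * conj (∫ u in (0 : ℝ)..(1 / 4), g (p + u) * conj (ee (w i) (ζ (p + u))))) 0
    ∧ HasSum (fun i => ‖∫ u in (0 : ℝ)..(1 / 4), f (p - u) * conj (ee (w i) (ζ (p - u)))‖ ^ 2)
        (A * ∫ u in (0 : ℝ)..(1 / 4), ‖f (p - u)‖ ^ 2)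
    ∧ HasSum (fun i => ‖∫ u in (0 : ℝ)..(1 / 4), g (p + u) * conj (ee (w i) (ζ (p + u)))‖ ^ 2)
        (A * ∫ u in (0 : ℝ)..(1 / 4), ‖g (p + u)‖ ^ 2) := by
  have hζ := L.cont
  set f1 : ℝ → ℂ := (Ioc (p - 1 / 4) p).indicator f with hf1
  set g1 : ℝ → ℂ := (Ioc p (p + 1 / 4)).indicator g with hg1
  have bf1 : BM f1 := by
    obtain ⟨C, hC0, hC⟩ := hf.bound
    exact ⟨hf.1.indicator measurableSet_Ioc, C, fun x =>
      (norm_indicator_le_norm_self _ _).trans (hC x)⟩
  have bg1 : BM g1 := by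
    obtain ⟨C, hC0, hC⟩ := hg.bound
    exact ⟨hg.1.indicator measurableSet_Ioc, C, fun x =>
      (norm_indicator_le_norm_self _ _).trans (hC x)⟩
  have hdis : ∀ t, f1 t = 0 ∨ g1 t = 0 := by
    intro t
    by_cases ht : t ≤ p
    · right
      simp only [hg1]
      exact indicator_of_notMem (fun h => absurd h.1 (not_lt.2 ht)) _
    · left
      simp only [hf1]
      exact indicator_of_notMem (fun h => ht h.2) _
  have F1 : ∀ {E : Type} [NormedAddCommGroup E] [NormedSpace ℝ E] (k : ℝ → E),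
      (∫ t in (p - 1 / 4)..(p - 1 / 4 + 1), (Ioc (p - 1 / 4) p).indicator k t)
        = ∫ u in (0 : ℝ)..(1 / 4), k (p - u) := by
    intro E _ _ k
    rw [intervalIntegral.integral_comp_sub_left k p, sub_zero,
      intervalIntegral.integral_of_le (by linarith), intervalIntegral.integral_of_le (by linarith),
      setIntegral_indicator measurableSet_Ioc]
    congr 2
    ext x
    simp only [mem_inter_iff, mem_Ioc]
    constructor
    · rintro ⟨_, h⟩; exact h
    · intro h; exact ⟨⟨h.1, by linarith [h.2]⟩, h⟩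
  have G1 : ∀ {E : Type} [NormedAddCommGroup E] [NormedSpace ℝ E] (k : ℝ → E),
      (∫ t in (p - 1 / 4)..(p - 1 / 4 + 1), (Ioc p (p + 1 / 4)).indicator k t)
        = ∫ u in (0 : ℝ)..(1 / 4), k (p + u) := by
    intro E _ _ k
    rw [intervalIntegral.integral_comp_add_left k p, add_zero,
      intervalIntegral.integral_of_le (by linarith), intervalIntegral.integral_of_le (by linarith),
      setIntegral_indicator measurableSet_Ioc]
    congr 2
    ext x
    simp only [mem_inter_iff, mem_Ioc]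
    constructor
    · rintro ⟨_, h⟩; exact h
    · intro h; exact ⟨⟨by linarith [h.1], by linarith [h.2]⟩, h⟩
  have e1 : ∀ i, (∫ t in (p - 1 / 4)..(p - 1 / 4 + 1), f1 t * conj (ee (w i) (ζ t)))
      = ∫ u in (0 : ℝ)..(1 / 4), f (p - u) * conj (ee (w i) (ζ (p - u))) := by
    intro i
    rw [← F1 fun t => f t * conj (ee (w i) (ζ t))]
    congr 1
    funext t
    simp only [hf1, indicator]
    split_ifs <;> simp
  have e2 : ∀ i, (∫ t in (p - 1 / 4)..(p - 1 / 4 + 1), g1 t * conj (ee (w i) (ζ t)))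
      = ∫ u in (0 : ℝ)..(1 / 4), g (p + u) * conj (ee (w i) (ζ (p + u))) := by
    intro i
    rw [← G1 fun t => g t * conj (ee (w i) (ζ t))]
    congr 1
    funext t
    simp only [hg1, indicator]
    split_ifs <;> simp
  have e3 : (∫ t in (p - 1 / 4)..(p - 1 / 4 + 1), ‖f1 t‖ ^ 2)
      = ∫ u in (0 : ℝ)..(1 / 4), ‖f (p - u)‖ ^ 2 := by
    rw [← F1 fun t => ‖f t‖ ^ 2]
    congr 1
    funext t
    simp only [hf1, indicator]
    split_ifs <;> simp
  have e4 : (∫ t in (p - 1 / 4)..(p - 1 / 4 + 1), ‖g1 t‖ ^ 2)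
      = ∫ u in (0 : ℝ)..(1 / 4), ‖g (p + u)‖ ^ 2 := by
    rw [← G1 fun t => ‖g t‖ ^ 2]
    congr 1
    funext t
    simp only [hg1, indicator]
    split_ifs <;> simp
  have k1 := h.ortho L (p - 1 / 4) bf1 bg1 hdis
  have k2 := h.window L (p - 1 / 4) bf1
  have k3 := h.window L (p - 1 / 4) bg1
  simp only [e1, e2, e3, e4] at k1 k2 k3
  exact ⟨k1, k2, k3⟩

end Pool.Agent.Q83.Curve
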