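import Pool.Agent.Q83.Curve.Piece

open MeasureTheory Complex Set Filter Topology
open scoped Real ComplexConjugate

namespace Pool.Agent.Q83.Curve

lemma fract_near {t : ℝ} (h : 0 < Int.fract t) : ∀ᶠ t' : ℝ in 𝓝 t, Int.fract t' = t' - ⌊t⌋ := by
  have h1 : (⌊t⌋ : ℝ) < t := by
    have := Int.self_sub_floor t; linarith
  have h2 : t < (⌊t⌋ : ℝ) + 1 := Int.lt_floor_add_one t
  filter_upwards [Ioo_mem_nhds h1 h2] with t' ht'
  have : ⌊t'⌋ = ⌊t⌋ := by
    rw [Int.floor_eq_iff]; exact ⟨ht'.1.le, ht'.2⟩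
  rw [← Int.self_sub_floor, this]

lemma exists_piece (q : ℕ → ℝ) (x : ℝ) : ∀ n : ℕ, q 0 < x → x < q n → (∀ k ≤ n, x ≠ q k) →
    ∃ k < n, q k < x ∧ x < q (k + 1) := by
  intro n
  induction n with
  | zero => intro h1 h2; exact absurd h1 (not_lt.2 h2.le)
  | succ n ih =>
    intro h1 h2 h3
    by_cases h : x < q n
    · obtain ⟨k, hk, h4⟩ := ih h1 h (fun k hk => h3 k (by omega))
      exact ⟨k, by omega, h4⟩
    · push Not at h
      exact ⟨n, by omega, lt_of_le_of_ne h (h3 n (by omega)).symm, h2⟩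

lemma mono_of_steps {q : ℕ → ℝ} {n : ℕ} (h : ∀ k < n, q k ≤ q (k + 1)) :
    ∀ i j, i ≤ j → j ≤ n → q i ≤ q j := by
  intro i j hij hj
  induction j with
  | zero => rw [Nat.le_zero.1 hij]
  | succ j ih =>
    rcases Nat.lt_or_ge i (j + 1) with h1 | h1
    · exact (ih (by omega) (by omega)).trans (h j (by omega))
    · rw [Nat.le_antisymm hij h1]

lemma mkLoop {Z : ℝ → ℂ} (hZc : ContinuousOn Z (Icc 0 1)) (hZe : Z 0 = Z 1)
    (hZi : InjOn Z (Ico 0 1)) {n : ℕ} {q : ℕ → ℝ} (q0 : q 0 = 0) (qn : q n = 1)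
    (qm : ∀ k < n, q k ≤ q (k + 1)) {F G : ℕ → ℝ → ℂ} (hF : ∀ k, Continuous (F k))
    (hFb : ∀ k, BM (F k)) (hGb : ∀ k, BM (G k))
    (hder : ∀ k < n, ∀ x ∈ Ioo (q k) (q (k + 1)), HasDerivAt Z (F k x) x)
    (hFG : ∀ k < n, ∀ x ∈ Icc (q k) (q (k + 1)), F k x - F k (q k) = ∫ p in (q k)..x, G k p) :
    ∃ T S r, Loop (fun t => Z (Int.fract t)) T S r ∧ HasRep T := by
  have mono := mono_of_steps qm
  set T : ℝ → ℂ := fun t => ∑ k ∈ Finset.range n, piece (q k) (q (k + 1)) (F k) t with hT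
  set S : Set ℝ := ⋃ k ∈ Finset.range (n + 1), {t : ℝ | Int.fract t = q k} with hS
  have hcont : Continuous (fun t : ℝ => Z (Int.fract t)) :=
    ContinuousOn.comp_fract'' hZc hZe
  -- local form off `S`
  have loc : ∀ t, t ∉ S → ∃ k < n, Int.fract t ∈ Ioo (q k) (q (k + 1)) ∧ 0 < Int.fract t ∧
      ∀ᶠ t' : ℝ in 𝓝 t, T t' = F k (t' - ⌊t⌋) ∧ Int.fract t' = t' - ⌊t⌋ := by
    intro t ht
    have hne : ∀ k ≤ n, Int.fract t ≠ q k := by
      intro k hk h
      apply ht
      simp only [hS, mem_iUnion]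
      exact ⟨k, Finset.mem_range.2 (by omega), h⟩
    have h0 : 0 < Int.fract t := by
      rcases (Int.fract_nonneg t).eq_or_lt with h | h
      · exact absurd h.symm (by rw [← q0]; exact hne 0 (by omega))
      · exact h
    obtain ⟨k, hk, h1, h2⟩ := exists_piece q (Int.fract t) n (by rw [q0]; exact h0)
      (by rw [qn]; exact Int.fract_lt_one t) hne
    refine ⟨k, hk, ⟨h1, h2⟩, h0, ?_⟩
    have hopen : ∀ᶠ t' : ℝ in 𝓝 t, t' - ⌊t⌋ ∈ Ioo (q k) (q (k + 1)) := by
      have hc : ContinuousAt (fun t' : ℝ => t' - ⌊t⌋) t := by fun_prop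
      apply hc.eventually
      apply Ioo_mem_nhds
      · show q k < t - ⌊t⌋
        rw [Int.self_sub_floor]; exact h1
      · show t - ⌊t⌋ < q (k + 1)
        rw [Int.self_sub_floor]; exact h2
    filter_upwards [fract_near h0, hopen] with t' e1 e2
    refine ⟨?_, e1⟩
    simp only [hT]
    rw [Finset.sum_eq_single k]
    · unfold piece
      rw [e1, if_pos ⟨e2.1.le, e2.2⟩]
    · intro j hj hjk
      unfold piece
      rw [e1, if_neg]
      rintro ⟨a1, a2⟩
      have hj' := Finset.mem_range.1 hj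
      rcases Nat.lt_or_gt_of_ne hjk with h | h
      · have := mono (j + 1) k h (by omega)
        linarith [e2.1]
      · have := mono (k + 1) j h (by omega)
        linarith [e2.2]
    · intro h
      exact absurd (Finset.mem_range.2 hk) h
  -- separation
  obtain ⟨r, hr, hsep⟩ : ∃ r : ℝ, 0 < r ∧ ∀ s τ, 1 / 4 ≤ τ → τ ≤ 1 / 2 →
      r ≤ ‖Z (Int.fract (s + τ)) - Z (Int.fract s)‖ := by
    have hK : IsCompact (Icc (0 : ℝ) 1 ×ˢ Icc (1 / 4 : ℝ) (1 / 2)) := isCompact_Icc.prod isCompact_Icc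
    have hne : (Icc (0 : ℝ) 1 ×ˢ Icc (1 / 4 : ℝ) (1 / 2)).Nonempty :=
      ⟨(0, 1 / 4), ⟨by norm_num, by norm_num⟩, ⟨by norm_num, by norm_num⟩⟩
    have hcc : ContinuousOn (fun p : ℝ × ℝ => ‖Z (Int.fract (p.1 + p.2)) - Z (Int.fract p.1)‖)
        (Icc (0 : ℝ) 1 ×ˢ Icc (1 / 4 : ℝ) (1 / 2)) := by
      apply Continuous.continuousOn
      exact ((hcont.comp (by fun_prop : Continuous fun p : ℝ × ℝ => p.1 + p.2)).sub
        (hcont.comp continuous_fst)).norm
    obtain ⟨p, hp, hmin⟩ := hK.exists_isMinOn hne hcc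
    refine ⟨‖Z (Int.fract (p.1 + p.2)) - Z (Int.fract p.1)‖, ?_, ?_⟩
    · rw [norm_pos_iff, sub_ne_zero]
      intro h
      have h1 := hZi ⟨Int.fract_nonneg _, Int.fract_lt_one _⟩
        ⟨Int.fract_nonneg _, Int.fract_lt_one _⟩ h
      rw [Int.fract_eq_fract] at h1
      obtain ⟨z, hz⟩ := h1
      have h2 : (z : ℝ) = p.2 := by rw [← hz]; ring
      have h3 := hp.2.1
      have h4 := hp.2.2
      rw [← h2] at h3 h4
      have h5 : (0 : ℝ) < z := by linarith
      have h6 : (z : ℝ) < 1 := by linarith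
      have h7 : 0 < z := by exact_mod_cast h5
      have h8 : z < 1 := by exact_mod_cast h6
      omega
    · intro s τ h1 h2
      have := hmin (show (Int.fract s, τ) ∈ Icc (0 : ℝ) 1 ×ˢ Icc (1 / 4 : ℝ) (1 / 2) from
        ⟨⟨Int.fract_nonneg _, (Int.fract_lt_one _).le⟩, ⟨h1, h2⟩⟩)
      simp only [mem_ofPred_eq] at this
      rw [Int.fract_fract] at this
      have e : Int.fract (Int.fract s + τ) = Int.fract (s + τ) := by
        rw [Int.fract_eq_fract]
        exact ⟨-⌊s⌋, by rw [← Int.self_sub_floor s]; push_cast; ring⟩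
      rwa [e] at this
  refine ⟨T, S, r, ⟨hcont, fun t => by simp only [Int.fract_add_one], ?_, ?_, ?_, ?_, ?_, hr,
    hsep⟩, ?_⟩
  · intro t
    simp only [hT]
    apply Finset.sum_congr rfl
    intro k _
    exact piece_per _ _ _ t
  · have : ∀ N : ℕ, BM (fun t => ∑ k ∈ Finset.range N, piece (q k) (q (k + 1)) (F k) t) := by
      intro N
      induction N with
      | zero => simpa using BM.const (X := ℝ) 0
      | succ N ih =>
        simp only [Finset.sum_range_succ]
        exact ih.add (piece_bm _ _ (hFb N))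
    exact this n
  · apply Set.Countable.biUnion (Finset.countable_toSet _)
    intro k _
    apply (Set.countable_range (fun z : ℤ => (z : ℝ) + q k)).mono
    intro t ht
    simp only [mem_ofPred_eq] at ht
    refine ⟨⌊t⌋, ?_⟩
    simp only
    rw [← ht, Int.floor_add_fract]
  · intro t ht
    obtain ⟨k, hk, h1, h2, h3⟩ := loc t ht
    have e1 : T t = F k (Int.fract t) := by
      have := h3.self_of_nhds
      rw [this.1, Int.self_sub_floor]
    rw [e1]
    have d1 : HasDerivAt (fun t' : ℝ => t' - ⌊t⌋) 1 t := (hasDerivAt_id t).sub_const _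
    have d2 : HasDerivAt Z (F k (Int.fract t)) (t - ⌊t⌋) := by
      have := hder k hk (Int.fract t) h1
      rwa [← Int.self_sub_floor] at this ⊢
    have d3 := d2.scomp t d1
    rw [one_smul] at d3
    apply d3.congr_of_eventuallyEq
    filter_upwards [h3] with t' ht'
    simp only [Function.comp]
    rw [ht'.2]
  · intro t ht
    obtain ⟨k, hk, h1, h2, h3⟩ := loc t ht
    have hc : ContinuousAt (fun t' : ℝ => F k (t' - ⌊t⌋)) t := by
      have := hF k
      fun_prop
    apply hc.congr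
    filter_upwards [h3] with t' ht'
    exact ht'.1.symm
  · have : ∀ N ≤ n, HasRep (fun t => ∑ k ∈ Finset.range N, piece (q k) (q (k + 1)) (F k) t) := by
      intro N hN
      induction N with
      | zero => simpa using HasRep.zero
      | succ N ih =>
        simp only [Finset.sum_range_succ]
        refine (ih (by omega)).add (HasRep.piece ?_ (qm N (by omega)) ?_ (hGb N)
          (hFG N (by omega)))
        · have := mono 0 N (by omega) (by omega)
          rwa [q0] at this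
        · have := mono (N + 1) n (by omega) le_rfl
          rwa [qn] at this
    exact this n le_rfl

end Pool.Agent.Q83.Curve
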