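import Pool.Agent.Q83.Curve.Core

open MeasureTheory Complex Set
open scoped Real ComplexConjugate

namespace Pool.Agent.Q83.Curve

def HasRep (β : ℝ → ℂ) : Prop := ∃ m n J c, Rep β m n J c

lemma HasRep.zero : HasRep (fun _ => 0) :=
  ⟨fun _ => 0, 0, fun _ => 0, fun _ => 0, BM.const 0, fun _ => rfl, fun s τ _ _ => by simp⟩

lemma HasRep.add {β1 β2 : ℝ → ℂ} (h1 : HasRep β1) (h2 : HasRep β2) :
    HasRep (fun t => β1 t + β2 t) := by
  obtain ⟨m1, n1, J1, c1, r1⟩ := h1
  obtain ⟨m2, n2, J2, c2, r2⟩ := h2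
  refine ⟨fun t => m1 t + m2 t, n1 + n2, fun k => if k < n1 then J1 k else J2 (k - n1),
    fun k => if k < n1 then c1 k else c2 (k - n1), r1.bm.add r2.bm,
    fun t => by simp only [r1.per t, r2.per t], fun s τ h0 h1 => ?_⟩
  rw [intervalIntegral.integral_add (r1.bm.ii _ _) (r2.bm.ii _ _), Finset.sum_range_add]
  have e1 := r1.inc s τ h0 h1
  have e2 := r2.inc s τ h0 h1
  have f1 : ∑ x ∈ Finset.range n1, (if x < n1 then J1 x else J2 (x - n1))
      * ((⌊s + τ - (if x < n1 then c1 x else c2 (x - n1))⌋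
        - ⌊s - (if x < n1 then c1 x else c2 (x - n1))⌋ : ℤ) : ℂ)
      = ∑ x ∈ Finset.range n1, J1 x * ((⌊s + τ - c1 x⌋ - ⌊s - c1 x⌋ : ℤ) : ℂ) := by
    apply Finset.sum_congr rfl
    intro x hx
    rw [if_pos (Finset.mem_range.1 hx), if_pos (Finset.mem_range.1 hx)]
  have f2 : ∑ x ∈ Finset.range n2, (if n1 + x < n1 then J1 (n1 + x) else J2 (n1 + x - n1))
      * ((⌊s + τ - (if n1 + x < n1 then c1 (n1 + x) else c2 (n1 + x - n1))⌋
        - ⌊s - (if n1 + x < n1 then c1 (n1 + x) else c2 (n1 + x - n1))⌋ : ℤ) : ℂ)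
      = ∑ x ∈ Finset.range n2, J2 x * ((⌊s + τ - c2 x⌋ - ⌊s - c2 x⌋ : ℤ) : ℂ) := by
    apply Finset.sum_congr rfl
    intro x _
    rw [if_neg (by omega), if_neg (by omega), Nat.add_sub_cancel_left]
  rw [f1, f2]
  linear_combination e1 + e2

/-- one smooth piece, extended periodically -/
noncomputable def piece (a b : ℝ) (F : ℝ → ℂ) (t : ℝ) : ℂ :=
  if a ≤ Int.fract t ∧ Int.fract t < b then F (Int.fract t) else 0

lemma piece_per (a b : ℝ) (F : ℝ → ℂ) : Function.Periodic (piece a b F) 1 := by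
  intro t
  unfold piece
  rw [Int.fract_add_one]

lemma piece_bm (a b : ℝ) {F : ℝ → ℂ} (hF : BM F) : BM (piece a b F) := by
  obtain ⟨C, hC0, hC⟩ := hF.bound
  refine ⟨?_, C, fun t => ?_⟩
  · unfold piece
    apply Measurable.ite
    · exact (measurableSet_le (measurable_const (α := ℝ) (a := a)) measurable_fract).inter
        (measurableSet_lt measurable_fract measurable_const)
    · exact hF.1.comp measurable_fract
    · exact measurable_const
  · unfold piece
    split_ifs
    · exact hC _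
    · simpa using hC0

lemma HasRep.piece {a b : ℝ} (ha : 0 ≤ a) (hab : a ≤ b) (hb : b ≤ 1) {F G : ℝ → ℂ}
    (hG : BM G) (hFG : ∀ x ∈ Icc a b, F x - F a = ∫ p in a..x, G p) :
    HasRep (piece a b F) := by
  have bg := piece_bm a b hG
  have pg := piece_per a b G
  -- integrals of the periodic derivative
  have g0 : ∀ t, 0 ≤ t → t ≤ 1 → (∫ p in (0 : ℝ)..t, Curve.piece a b G p)
      = ∫ p in (0 : ℝ)..t, (Ico a b).indicator G p := by
    intro t h0 h1
    rw [intervalIntegral.integral_of_le h0, intervalIntegral.integral_of_le h0,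
      ← integral_Ico_eq_integral_Ioc, ← integral_Ico_eq_integral_Ioc]
    apply setIntegral_congr_fun measurableSet_Ico
    intro p hp
    simp only [Curve.piece]
    rw [Int.fract_eq_self.2 ⟨hp.1, by linarith [hp.2]⟩]
    simp only [indicator, mem_Ico]
  have bI : BM ((Ico a b).indicator G) := by
    obtain ⟨C, hC0, hC⟩ := hG.bound
    exact ⟨hG.1.indicator measurableSet_Ico, C, fun x =>
      (norm_indicator_le_norm_self _ _).trans (hC x)⟩
  have i1 : ∀ t, t ≤ a → 0 ≤ t → (∫ p in (0 : ℝ)..t, (Ico a b).indicator G p) = 0 := by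
    intro t ht h0
    rw [intervalIntegral.integral_of_le h0, ← integral_Ico_eq_integral_Ioc]
    apply setIntegral_eq_zero_of_forall_eq_zero
    intro p hp
    exact indicator_of_notMem (fun h => absurd h.1 (by linarith [hp.2])) _
  have i2 : ∀ t, a ≤ t → t ≤ b → (∫ p in (0 : ℝ)..t, (Ico a b).indicator G p)
      = ∫ p in a..t, G p := by
    intro t h1 h2
    rw [← intervalIntegral.integral_add_adjacent_intervals (bI.ii 0 a) (bI.ii a t), i1 a le_rfl ha,
      zero_add, intervalIntegral.integral_of_le h1, intervalIntegral.integral_of_le h1,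
      ← integral_Ico_eq_integral_Ioc, ← integral_Ico_eq_integral_Ioc]
    apply setIntegral_congr_fun measurableSet_Ico
    intro p hp
    exact indicator_of_mem (show p ∈ Ico a b from ⟨hp.1, by linarith [hp.2]⟩) _
  have i3 : ∀ t, b ≤ t → (∫ p in (0 : ℝ)..t, (Ico a b).indicator G p) = ∫ p in a..b, G p := by
    intro t h1
    rw [← intervalIntegral.integral_add_adjacent_intervals (bI.ii 0 b) (bI.ii b t),
      i2 b hab le_rfl]
    have : (∫ p in b..t, (Ico a b).indicator G p) = 0 := by
      rw [intervalIntegral.integral_of_le h1]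
      apply setIntegral_eq_zero_of_forall_eq_zero
      intro p hp
      exact indicator_of_notMem (fun h => absurd h.2 (by linarith [hp.1])) _
    rw [this, add_zero]
  -- the auxiliary function
  set Φ : ℝ → ℂ := fun t => (∫ p in (0 : ℝ)..t, Curve.piece a b G p)
    + (F a * ((⌊t - a⌋ : ℤ) : ℂ) - F b * ((⌊t - b⌋ : ℤ) : ℂ)) with hΦ
  set Ψ : ℝ → ℂ := fun t => Curve.piece a b F t - Φ t with hΨ
  have hper : Function.Periodic Ψ 1 := by
    intro t
    simp only [hΨ, hΦ]
    rw [piece_per a b F t, show t + 1 - a = t - a + 1 by ring, show t + 1 - b = t - b + 1 by ring,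
      Int.floor_add_one, Int.floor_add_one,
      ← intervalIntegral.integral_add_adjacent_intervals (bg.ii 0 t) (bg.ii t (t + 1)),
      pg.intervalIntegral_add_eq t 0, zero_add, g0 1 zero_le_one le_rfl, i3 1 hb,
      ← hFG b ⟨hab, le_rfl⟩]
    push_cast
    ring
  have hconst : ∀ t ∈ Ico (0 : ℝ) 1, Ψ t = F a - F b := by
    intro t ht
    simp only [hΨ, hΦ]
    rw [g0 t ht.1 ht.2.le]
    unfold Curve.piece
    rw [Int.fract_eq_self.2 ht]
    by_cases h1 : t < a
    · have f1 : ⌊t - a⌋ = -1 := by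
        rw [Int.floor_eq_iff]; constructor <;> push_cast <;> linarith [ht.1]
      have f2 : ⌊t - b⌋ = -1 := by
        rw [Int.floor_eq_iff]; constructor <;> push_cast <;> linarith [ht.1]
      rw [if_neg (fun h => absurd h.1 (not_le.2 h1)), f1, f2, i1 t h1.le ht.1]
      push_cast
      ring
    · push Not at h1
      have f1 : ⌊t - a⌋ = 0 := by
        rw [Int.floor_eq_iff]; constructor <;> push_cast <;> linarith [ht.2]
      by_cases h2 : t < b
      · have f2 : ⌊t - b⌋ = -1 := by
          rw [Int.floor_eq_iff]; constructor <;> push_cast <;> linarith [ht.1]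
        rw [if_pos ⟨h1, h2⟩, f1, f2, i2 t h1 h2.le, ← hFG t ⟨h1, h2.le⟩]
        push_cast
        ring
      · push Not at h2
        have f2 : ⌊t - b⌋ = 0 := by
          rw [Int.floor_eq_iff]; constructor <;> push_cast <;> linarith [ht.2]
        rw [if_neg (fun h => absurd h.2 (not_lt.2 h2)), f1, f2, i3 t h2, ← hFG b ⟨hab, le_rfl⟩]
        push_cast
        ring
  have hall : ∀ t, Ψ t = F a - F b := by
    intro t
    obtain ⟨y, hy, hty⟩ := hper.exists_mem_Ico₀ one_pos t
    rw [hty]
    exact hconst y hy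
  refine ⟨Curve.piece a b G, 2, fun k => if k = 0 then F a else - F b,
    fun k => if k = 0 then a else b, bg, pg, fun s τ _ _ => ?_⟩
  have e1 := hall (s + τ)
  have e2 := hall s
  simp only [hΨ, hΦ] at e1 e2
  have e3 := intervalIntegral.integral_add_adjacent_intervals (bg.ii 0 s) (bg.ii s (s + τ))
  rw [Finset.sum_range_succ, Finset.sum_range_one]
  simp only [if_true, one_ne_zero, if_false]
  rw [← e3] at e1
  push_cast
  linear_combination e1 - e2

end Pool.Agent.Q83.Curve
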