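import Pool.Agent.Q83.Curve.Mk

open MeasureTheory Complex Set Filter Topology
open scoped Real ComplexConjugate

namespace Pool.Agent.Q83.Curve

/-- clamp to `[a,b]` -/
noncomputable def cl (a b y : ℝ) : ℝ := max a (min b y)

lemma cl_cont (a b : ℝ) : Continuous (cl a b) := by unfold cl; fun_prop

lemma cl_mem {a b : ℝ} (hab : a ≤ b) (y : ℝ) : cl a b y ∈ Icc a b :=
  ⟨le_max_left _ _, max_le hab (min_le_left _ _)⟩

lemma cl_eq {a b y : ℝ} (hy : y ∈ Icc a b) : cl a b y = y := by
  unfold cl
  rw [min_eq_right hy.2, max_eq_right hy.1]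

lemma clamp_bm {D : ℝ → ℂ} {a b : ℝ} (hab : a ≤ b) (hD : ContinuousOn D (Icc a b)) (s0 l : ℝ)
    (c : ℂ) : Continuous (fun x : ℝ => c * D (cl a b (s0 + l * x)))
      ∧ BM (fun x : ℝ => c * D (cl a b (s0 + l * x))) := by
  have h1 : Continuous (fun x : ℝ => c * D (cl a b (s0 + l * x))) := by
    apply Continuous.mul continuous_const
    apply hD.comp_continuous
    · exact (cl_cont a b).comp (by fun_prop)
    · intro x; exact cl_mem hab _
  refine ⟨h1, h1.measurable, ?_⟩
  obtain ⟨C, hC⟩ := isCompact_Icc.exists_bound_of_continuousOn hD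
  refine ⟨‖c‖ * C, fun x => ?_⟩
  rw [norm_mul]
  exact mul_le_mul_of_nonneg_left (hC _ (cl_mem hab _)) (norm_nonneg _)

lemma c2piece {h : ℝ → ℂ} {a b : ℝ} (hab : a < b) (hc : ContDiffOn ℝ 2 h (Icc a b)) (s0 : ℝ)
    {l : ℝ} (hl : 0 < l) : ∃ F G : ℝ → ℂ, Continuous F ∧ BM F ∧ BM G ∧
      (∀ x, s0 + l * x ∈ Ioo a b → HasDerivAt (fun x => h (s0 + l * x)) (F x) x) ∧
      (∀ u v, u ≤ v → s0 + l * u ∈ Icc a b → s0 + l * v ∈ Icc a b →
        F v - F u = ∫ p in u..v, G p) := by
  have hu : UniqueDiffOn ℝ (Icc a b) := uniqueDiffOn_Icc hab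
  set D : ℝ → ℂ := derivWithin h (Icc a b) with hD
  have hD1 : ContDiffOn ℝ 1 D (Icc a b) := hc.derivWithin hu (by norm_num)
  set D2 : ℝ → ℂ := derivWithin D (Icc a b) with hD2
  have hD2c : ContinuousOn D2 (Icc a b) := hD1.continuousOn_derivWithin hu (by norm_num)
  have dh : ∀ y ∈ Ioo a b, HasDerivAt h (D y) y := by
    intro y hy
    have h1 := ((hc.differentiableOn (by norm_num)) y ⟨hy.1.le, hy.2.le⟩).hasDerivWithinAt
    exact h1.hasDerivAt (Icc_mem_nhds hy.1 hy.2)
  have dD : ∀ y ∈ Ioo a b, HasDerivAt D (D2 y) y := by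
    intro y hy
    have h1 := ((hD1.differentiableOn (by norm_num)) y ⟨hy.1.le, hy.2.le⟩).hasDerivWithinAt
    exact h1.hasDerivAt (Icc_mem_nhds hy.1 hy.2)
  have aff : ∀ x : ℝ, HasDerivAt (fun x : ℝ => s0 + l * x) l x := by
    intro x
    have := ((hasDerivAt_id x).const_mul l).const_add s0
    simpa using this
  obtain ⟨cF, bF⟩ := clamp_bm hab.le hD1.continuousOn s0 l (l : ℂ)
  obtain ⟨cG, bG⟩ := clamp_bm hab.le hD2c s0 l ((l : ℂ) * l)
  refine ⟨_, _, cF, bF, bG, ?_, ?_⟩
  · intro x hx
    have h1 := (dh _ hx).scomp x (aff x)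
    rw [cl_eq ⟨hx.1.le, hx.2.le⟩]
    have e : l • D (s0 + l * x) = (l : ℂ) * D (s0 + l * x) := by
      rw [Complex.real_smul]
    rw [e] at h1
    exact h1
  · intro u v huv h1 h2
    symm
    apply intervalIntegral.integral_eq_sub_of_hasDerivAt_of_le huv cF.continuousOn
    · intro x hx
      have hx1 : s0 + l * x ∈ Ioo a b := by
        have a1 := mul_lt_mul_of_pos_left hx.1 hl
        have a2 := mul_lt_mul_of_pos_left hx.2 hl
        exact ⟨by linarith [h1.1], by linarith [h2.2]⟩
      have h3 := ((dD _ hx1).scomp x (aff x)).const_mul (l : ℂ)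
      have e : (l : ℂ) * l • D2 (s0 + l * x) = (l : ℂ) * l * D2 (cl a b (s0 + l * x)) := by
        rw [cl_eq ⟨hx1.1.le, hx1.2.le⟩, Complex.real_smul]
        ring
      rw [e] at h3
      apply h3.congr_of_eventuallyEq
      have hev : ∀ᶠ x' : ℝ in 𝓝 x, s0 + l * x' ∈ Ioo a b := by
        apply (aff x).continuousAt.eventually
        exact Ioo_mem_nhds hx1.1 hx1.2
      filter_upwards [hev] with x' hx'
      rw [cl_eq ⟨hx'.1.le, hx'.2.le⟩]
      rfl
    · exact bG.ii _ _

lemma curveLoop {h : ℝ → ℂ} {L : ℝ} {n : ℕ} {a : ℕ → ℝ} (a0 : a 0 = 0) (an : a n = L)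
    (am : ∀ k < n, a k < a (k + 1)) (hc : ContinuousOn h (Icc 0 L))
    (hp : ∀ k < n, ContDiffOn ℝ 2 h (Icc (a k) (a (k + 1)))) {s0 t0 : ℝ} (hs0 : 0 ≤ s0)
    (hst : s0 < t0) (ht0 : t0 ≤ L) (he : h s0 = h t0) (hi : InjOn h (Ico s0 t0)) :
    ∃ T S r, Loop (fun t => h (s0 + (t0 - s0) * Int.fract t)) T S r ∧ HasRep T := by
  set l : ℝ := t0 - s0 with hl
  have hlp : 0 < l := by rw [hl]; linarith
  have amono := mono_of_steps (fun k hk => (am k hk).le)
  have choice : ∀ k : ℕ, ∃ F G : ℝ → ℂ, Continuous F ∧ BM F ∧ BM G ∧ (k < n →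
      (∀ x, s0 + l * x ∈ Ioo (a k) (a (k + 1)) → HasDerivAt (fun x => h (s0 + l * x)) (F x) x) ∧
      (∀ u v, u ≤ v → s0 + l * u ∈ Icc (a k) (a (k + 1)) → s0 + l * v ∈ Icc (a k) (a (k + 1)) →
        F v - F u = ∫ p in u..v, G p)) := by
    intro k
    by_cases hk : k < n
    · obtain ⟨F, G, h1, h2, h3, h4, h5⟩ := c2piece (am k hk) (hp k hk) s0 hlp
      exact ⟨F, G, h1, h2, h3, fun _ => ⟨h4, h5⟩⟩
    · exact ⟨fun _ => 0, fun _ => 0, continuous_const, BM.const 0, BM.const 0,
        fun h => absurd h hk⟩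
  choose F G hF hFb hGb hFG using choice
  set c : ℕ → ℝ := fun k => max s0 (min (a k) t0) with hcdef
  set q : ℕ → ℝ := fun k => (c k - s0) / l with hq
  have sq : ∀ k, s0 + l * q k = c k := by
    intro k
    simp only [hq]
    field_simp
    ring
  have q0 : q 0 = 0 := by
    simp only [hq, hcdef, a0]
    rw [max_eq_left ((min_le_left _ _).trans hs0), sub_self, zero_div]
  have qn : q n = 1 := by
    simp only [hq, hcdef, an]
    rw [min_eq_right ht0, max_eq_right hst.le, hl, div_self (by linarith)]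
  have cm : ∀ k < n, c k ≤ c (k + 1) := by
    intro k hk
    simp only [hcdef]
    exact max_le_max le_rfl (min_le_min (am k hk).le le_rfl)
  have qm : ∀ k < n, q k ≤ q (k + 1) := by
    intro k hk
    simp only [hq]
    exact div_le_div_of_nonneg_right (by linarith [cm k hk]) hlp.le
  -- if the piece is nondegenerate then it lies inside the original piece
  have nd : ∀ k < n, c k < c (k + 1) → a k ≤ c k ∧ c (k + 1) ≤ a (k + 1) := by
    intro k hk hck
    constructor
    · by_contra hcon
      push Not at hcon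
      have h1 : t0 < a k := by
        by_contra h2
        push Not at h2
        have : a k ≤ c k := by
          simp only [hcdef]; rw [min_eq_left h2]; exact le_max_right _ _
        linarith
      have h3 : c (k + 1) ≤ t0 := by
        simp only [hcdef]; exact max_le hst.le (min_le_right _ _)
      have h4 : t0 ≤ c k := by
        simp only [hcdef]; rw [min_eq_right h1.le]; exact le_max_right _ _
      linarith
    · by_contra hcon
      push Not at hcon
      have h1 : a (k + 1) < s0 := by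
        by_contra h2
        push Not at h2
        have : c (k + 1) ≤ a (k + 1) := by
          simp only [hcdef]; exact max_le h2 (min_le_left _ _)
        linarith
      have h3 : s0 ≤ c k := by simp only [hcdef]; exact le_max_left _ _
      have h4 : c (k + 1) ≤ s0 := by
        simp only [hcdef]; exact max_le le_rfl ((min_le_left _ _).trans h1.le)
      linarith
  have Zc : ContinuousOn (fun x => h (s0 + l * x)) (Icc 0 1) := by
    apply hc.comp (by fun_prop)
    intro x hx
    have h1 := mul_nonneg hlp.le hx.1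
    have h2 := mul_le_mul_of_nonneg_left hx.2 hlp.le
    refine ⟨by linarith, ?_⟩
    rw [hl] at h1 h2 ⊢
    linarith
  have Ze : (fun x => h (s0 + l * x)) 0 = (fun x => h (s0 + l * x)) 1 := by
    simp only [mul_zero, add_zero, mul_one]
    rw [he, hl]
    congr 1
    ring
  have Zi : InjOn (fun x => h (s0 + l * x)) (Ico 0 1) := by
    intro x hx y hy hxy
    have hm : ∀ z ∈ Ico (0 : ℝ) 1, s0 + l * z ∈ Ico s0 t0 := by
      intro z hz
      have h1 := mul_nonneg hlp.le hz.1
      have h2 := mul_lt_mul_of_pos_left hz.2 hlp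
      refine ⟨by linarith, ?_⟩
      rw [hl] at h1 h2 ⊢
      linarith
    have := hi (hm x hx) (hm y hy) hxy
    have h3 : l * x = l * y := by linarith
    exact mul_left_cancel₀ hlp.ne' h3
  refine mkLoop Zc Ze Zi q0 qn qm hF hFb hGb ?_ ?_
  · intro k hk x hx
    have h1 : c k < c (k + 1) := by
      have := hx.1.trans hx.2
      rw [← sq k, ← sq (k + 1)]
      have := mul_lt_mul_of_pos_left this hlp
      linarith
    obtain ⟨h2, h3⟩ := nd k hk h1
    apply (hFG k hk).1
    have h4 := mul_lt_mul_of_pos_left hx.1 hlp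
    have h5 := mul_lt_mul_of_pos_left hx.2 hlp
    have h6 := sq k
    have h7 := sq (k + 1)
    exact ⟨by linarith, by linarith⟩
  · intro k hk x hx
    rcases (qm k hk).eq_or_lt with h | h
    · have : x = q k := le_antisymm (by rw [h]; exact hx.2) hx.1
      rw [this]; simp
    · have h1 : c k < c (k + 1) := by
        rw [← sq k, ← sq (k + 1)]
        have := mul_lt_mul_of_pos_left h hlp
        linarith
      obtain ⟨h2, h3⟩ := nd k hk h1
      apply (hFG k hk).2 _ _ hx.1
      · rw [sq k]; exact ⟨h2, by linarith⟩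
      · have h4 := mul_le_mul_of_nonneg_left hx.1 hlp.le
        have h5 := mul_le_mul_of_nonneg_left hx.2 hlp.le
        have h6 := sq k
        have h7 := sq (k + 1)
        exact ⟨by linarith, by linarith⟩

end Pool.Agent.Q83.Curve
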