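import Pool.Agent.Q83.Curve.Trace

open MeasureTheory Complex Set
open scoped Real ComplexConjugate

namespace Pool.Agent.Q83.Curve

/-- crossing indicator: a translate of `c` by an integer lies in `(s,t]` -/
noncomputable def Nf (c s t : ℝ) : ℂ := if Int.fract (t - c) < Int.fract (s - c) then 1 else 0

lemma floor_inc (c s τ : ℝ) (h0 : 0 ≤ τ) (h1 : τ < 1) :
    ((⌊s + τ - c⌋ - ⌊s - c⌋ : ℤ) : ℂ) = Nf c s (s + τ) := by
  set x := s - c with hx
  have e : s + τ - c = x + τ := by rw [hx]; ring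
  unfold Nf
  rw [e]
  have a1 : ⌊x⌋ ≤ ⌊x + τ⌋ := Int.floor_le_floor (by linarith)
  have a2 : ⌊x + τ⌋ ≤ ⌊x⌋ + 1 := by
    have : ⌊x + τ⌋ ≤ ⌊x + 1⌋ := Int.floor_le_floor (by linarith)
    rwa [Int.floor_add_one] at this
  have f1 := Int.self_sub_floor x
  have f2 := Int.self_sub_floor (x + τ)
  rcases (by omega : ⌊x + τ⌋ = ⌊x⌋ ∨ ⌊x + τ⌋ = ⌊x⌋ + 1) with h | h
  · have : ¬ Int.fract (x + τ) < Int.fract x := by
      rw [← f1, ← f2, h]; push Not; linarith
    rw [if_neg this, h]
    simp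
  · have : Int.fract (x + τ) < Int.fract x := by
      rw [← f1, ← f2, h]; push_cast; linarith
    rw [if_pos this, h]
    simp

lemma Nf_meas : Measurable (fun q : ℝ × ℝ × ℝ => Nf q.1 q.2.1 q.2.2) := by
  unfold Nf
  apply Measurable.ite _ measurable_const measurable_const
  exact measurableSet_lt (by fun_prop) (by fun_prop)

lemma Nf_bm : BM (fun q : ℝ × ℝ × ℝ => Nf q.1 q.2.1 q.2.2) :=
  ⟨Nf_meas, 1, fun q => by
    show ‖Nf q.1 q.2.1 q.2.2‖ ≤ 1
    unfold Nf; split_ifs <;> simp⟩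

lemma Nf_per (c s t : ℝ) : Nf c (s + 1) (t + 1) = Nf c s t := by
  unfold Nf
  rw [show t + 1 - c = t - c + 1 by ring, show s + 1 - c = s - c + 1 by ring,
    Int.fract_add_one, Int.fract_add_one]

lemma Nf_per' (c s t : ℝ) : Nf (c + 1) s t = Nf c s t := by
  unfold Nf
  rw [show t - (c + 1) = t - c - 1 by ring, show s - (c + 1) = s - c - 1 by ring,
    Int.fract_sub_one, Int.fract_sub_one]

/-- For `s` in `[c-1,c)` and `0 ≤ τ ≤ 1/2` the crossing indicator is `1` iff `c ≤ s + τ`. -/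
lemma Nf_val (c s τ : ℝ) (hs : s ∈ Ico (c - 1) c) (h0 : 0 ≤ τ) (h1 : τ ≤ 1 / 2) :
    Nf c s (s + τ) = if c ≤ s + τ then 1 else 0 := by
  have hs' : Int.fract (s - c) = s - c + 1 := by
    rw [← Int.fract_add_one (s - c)]
    exact Int.fract_eq_self.2 ⟨by linarith [hs.1], by linarith [hs.2]⟩
  unfold Nf
  rw [hs']
  by_cases h : c ≤ s + τ
  · have : Int.fract (s + τ - c) = s + τ - c :=
      Int.fract_eq_self.2 ⟨by linarith, by linarith [hs.2]⟩
    rw [this, if_pos h, if_pos (by linarith)]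
  · push Not at h
    have : Int.fract (s + τ - c) = s + τ - c + 1 := by
      rw [← Int.fract_add_one]
      exact Int.fract_eq_self.2 ⟨by linarith [hs.1], by linarith⟩
    rw [this, if_neg (by linarith), if_neg (by linarith)]

/-- For `p` in `(s,s+1]`, the crossing indicator of `p` is `1` iff `p ≤ s + τ`. -/
lemma Nf_val' (s τ p : ℝ) (hp : p ∈ Ioc s (s + 1)) (h0 : 0 ≤ τ) (h1 : τ ≤ 1 / 2) :
    Nf p s (s + τ) = if p ≤ s + τ then 1 else 0 := by
  have hs' : Int.fract (s - p) = s - p + 1 := by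
    rw [← Int.fract_add_one (s - p)]
    exact Int.fract_eq_self.2 ⟨by linarith [hp.2], by linarith [hp.1]⟩
  unfold Nf
  rw [hs']
  by_cases h : p ≤ s + τ
  · have : Int.fract (s + τ - p) = s + τ - p :=
      Int.fract_eq_self.2 ⟨by linarith, by linarith [hp.1]⟩
    rw [this, if_pos h, if_pos (by linarith)]
  · push Not at h
    have : Int.fract (s + τ - p) = s + τ - p + 1 := by
      rw [← Int.fract_add_one]
      exact Int.fract_eq_self.2 ⟨by linarith [hp.2], by linarith⟩
    rw [this, if_neg (by linarith), if_neg (by linarith)]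

lemma jump {K : ℝ → ℝ → ℂ} (hK : BM (Function.uncurry K)) (hp : ∀ s t, K (s + 1) (t + 1) = K s t)
    (hz : ∀ s t, 1 / 4 ≤ t - s → t - s ≤ 1 / 2 → K s t = 0) (c : ℝ) :
    ∫ s in (0 : ℝ)..1, ∫ τ in (0 : ℝ)..(1 / 2), Nf c s (s + τ) * K s (s + τ)
      = ∫ a in (0 : ℝ)..(1 / 4), ∫ b in (0 : ℝ)..(1 / 4), K (c - a) (c + b) := by
  have hper : Function.Periodic (fun s => ∫ τ in (0 : ℝ)..(1 / 2), Nf c s (s + τ) * K s (s + τ))
      1 := by
    intro s
    simp only
    apply intervalIntegral.integral_congr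
    intro τ _
    simp only
    rw [show s + 1 + τ = s + τ + 1 by ring, Nf_per, hp]
  have h1 := hper.intervalIntegral_add_eq 0 (c - 1)
  rw [zero_add, sub_add_cancel] at h1
  rw [h1]
  have bK1 : ∀ s, BM (fun t => K s t) := fun s => hK.comp (u := fun t : ℝ => (s, t)) (by fun_prop)
  -- inner integral
  have inner : ∀ s ∈ Ico (c - 1) c, (∫ τ in (0 : ℝ)..(1 / 2), Nf c s (s + τ) * K s (s + τ))
      = (Ico (c - 1 / 4) c).indicator (fun s => ∫ t in c..(c + 1 / 4), K s t) s := by
    intro s hs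
    have e0 : (∫ τ in (0 : ℝ)..(1 / 2), Nf c s (s + τ) * K s (s + τ))
        = ∫ τ in (0 : ℝ)..(1 / 2), (if c ≤ s + τ then K s (s + τ) else 0) := by
      apply intervalIntegral.integral_congr
      intro τ hτ
      rw [uIcc_of_le (by norm_num)] at hτ
      simp only
      rw [Nf_val c s τ hs hτ.1 hτ.2]
      split_ifs <;> simp
    rw [e0]
    have bm2 : BM (fun τ => if c ≤ s + τ then K s (s + τ) else 0) := by
      obtain ⟨C, hC0, hC⟩ := (bK1 s).bound
      refine ⟨Measurable.ite (measurableSet_le measurable_const (by fun_prop))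
        ((bK1 s).1.comp (by fun_prop)) measurable_const, C, fun τ => ?_⟩
      show ‖if c ≤ s + τ then K s (s + τ) else 0‖ ≤ C
      split_ifs
      · exact hC _
      · simpa using hC0
    by_cases h : c - 1 / 4 ≤ s
    · rw [indicator_of_mem (show s ∈ Ico (c - 1 / 4) c from ⟨h, hs.2⟩)]
      rw [← intervalIntegral.integral_add_adjacent_intervals (bm2.ii 0 (c - s))
        (bm2.ii (c - s) (1 / 2))]
      have z1 : (∫ τ in (0 : ℝ)..(c - s), (if c ≤ s + τ then K s (s + τ) else 0)) = 0 := by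
        rw [intervalIntegral.integral_of_le (by linarith [hs.2]),
          ← integral_Ico_eq_integral_Ioc]
        apply setIntegral_eq_zero_of_forall_eq_zero
        intro τ hτ
        rw [if_neg (by linarith [hτ.2])]
      have z2 : (∫ τ in (c - s)..(1 / 2), (if c ≤ s + τ then K s (s + τ) else 0))
          = ∫ t in c..(s + 1 / 2), K s t := by
        have := intervalIntegral.integral_comp_add_left (fun t => K s t) s
          (a := c - s) (b := 1 / 2)
        rw [show s + (c - s) = c by ring] at this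
        rw [← this]
        apply intervalIntegral.integral_congr
        intro τ hτ
        rw [uIcc_of_le (by linarith)] at hτ
        simp only
        rw [if_pos (by linarith [hτ.1])]
      rw [z1, z2, zero_add, ← intervalIntegral.integral_add_adjacent_intervals
        ((bK1 s).ii c (c + 1 / 4)) ((bK1 s).ii (c + 1 / 4) (s + 1 / 2))]
      have z3 : (∫ t in (c + 1 / 4)..(s + 1 / 2), K s t) = 0 := by
        rw [intervalIntegral.integral_of_le (by linarith)]
        apply setIntegral_eq_zero_of_forall_eq_zero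
        intro t ht
        apply hz
        · linarith [ht.1, hs.2]
        · linarith [ht.2]
      rw [z3, add_zero]
    · rw [indicator_of_notMem (fun h' => h h'.1)]
      push Not at h
      rw [intervalIntegral.integral_of_le (by norm_num)]
      apply setIntegral_eq_zero_of_forall_eq_zero
      intro τ hτ
      split_ifs with h'
      · apply hz
        · linarith
        · linarith [hτ.2]
      · rfl
  have e1 : (∫ s in (c - 1)..c, ∫ τ in (0 : ℝ)..(1 / 2), Nf c s (s + τ) * K s (s + τ))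
      = ∫ s in (c - 1 / 4)..c, ∫ t in c..(c + 1 / 4), K s t := by
    rw [intervalIntegral.integral_of_le (by linarith), intervalIntegral.integral_of_le
      (by linarith), ← integral_Ico_eq_integral_Ioc, ← integral_Ico_eq_integral_Ioc,
      setIntegral_congr_fun measurableSet_Ico inner, setIntegral_indicator measurableSet_Ico]
    congr 2
    ext x
    simp only [mem_inter_iff, mem_Ico]
    constructor
    · rintro ⟨_, h⟩; exact h
    · intro h; exact ⟨⟨by linarith [h.1], h.2⟩, h⟩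
  rw [e1]
  have e2 := intervalIntegral.integral_comp_sub_left
    (fun s => ∫ t in c..(c + 1 / 4), K s t) c (a := 0) (b := 1 / 4)
  rw [sub_zero] at e2
  rw [← e2]
  apply intervalIntegral.integral_congr
  intro a _
  simp only
  have e3 := intervalIntegral.integral_comp_add_left (fun t => K (c - a) t) c (a := 0) (b := 1 / 4)
  rw [add_zero] at e3
  rw [← e3]

lemma int_cross {m : ℝ → ℂ} (hm : BM m) (hper : Function.Periodic m 1) (s τ : ℝ) (h0 : 0 ≤ τ)
    (h1 : τ ≤ 1 / 2) :
    ∫ p in s..(s + τ), m p = ∫ p in (0 : ℝ)..1, m p * Nf p s (s + τ) := by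
  have hp : Function.Periodic (fun p => m p * Nf p s (s + τ)) 1 := by
    intro p
    simp only [hper p, Nf_per']
  have e := hp.intervalIntegral_add_eq 0 s
  rw [zero_add] at e
  rw [e]
  have bm : BM (fun p => m p * Nf p s (s + τ)) :=
    hm.mul (Nf_bm.comp (u := fun p : ℝ => (p, s, s + τ)) (by fun_prop))
  rw [← intervalIntegral.integral_add_adjacent_intervals (bm.ii s (s + τ)) (bm.ii (s + τ) (s + 1))]
  have z1 : (∫ p in s..(s + τ), m p * Nf p s (s + τ)) = ∫ p in s..(s + τ), m p := by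
    rw [intervalIntegral.integral_of_le (by linarith), intervalIntegral.integral_of_le
      (by linarith)]
    apply setIntegral_congr_fun measurableSet_Ioc
    intro p hp
    simp only
    rw [Nf_val' s τ p ⟨hp.1, by linarith [hp.2]⟩ h0 h1, if_pos hp.2, mul_one]
  have z2 : (∫ p in (s + τ)..(s + 1), m p * Nf p s (s + τ)) = 0 := by
    rw [intervalIntegral.integral_of_le (by linarith)]
    apply setIntegral_eq_zero_of_forall_eq_zero
    intro p hp
    rw [Nf_val' s τ p ⟨by linarith [hp.1], hp.2⟩ h0 h1, if_neg (by linarith [hp.1]), mul_zero]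
  rw [z1, z2, add_zero]

/-- Representation of increments of a periodic function of bounded variation. -/
structure Rep (β m : ℝ → ℂ) (n : ℕ) (J : ℕ → ℂ) (c : ℕ → ℝ) : Prop where
  bm : BM m
  per : Function.Periodic m 1
  inc : ∀ s τ, 0 ≤ τ → τ ≤ 1 / 2 → β (s + τ) - β s
    = (∫ p in s..(s + τ), m p) + ∑ k ∈ Finset.range n, J k * ((⌊s + τ - c k⌋ - ⌊s - c k⌋ : ℤ) : ℂ)

lemma Rep.conj {β m : ℝ → ℂ} {n : ℕ} {J : ℕ → ℂ} {c : ℕ → ℝ} (h : Rep β m n J c) :
    Rep (fun t => conj (β t)) (fun t => conj (m t)) n (fun k => conj (J k)) c := by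
  refine ⟨h.bm.conj, fun t => by simp only [h.per t], fun s τ h0 h1 => ?_⟩
  rw [← map_sub, h.inc s τ h0 h1, map_add, conj_ii, map_sum]
  congr 1
  apply Finset.sum_congr rfl
  intro k _
  rw [map_mul]
  congr 1
  exact map_intCast _ _

variable {ι : Type*} {ζ T : ℝ → ℂ} {S : Set ℝ} {r : ℝ} {w : ι → ℂ} {A : ℝ}

lemma aw_bm {ε : ℝ} (hε : 0 < ε) (w : ℂ) : BM (aw ε w) := (bmp_bm hε).mul (ee_bm w)

lemma Gw_bm {ε : ℝ} (hε : 0 < ε) (w : ℂ) : BM (Gw ε w) := by
  set B : Set ℂ := Metric.closedBall 0 ε with hB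
  have fin : IsFiniteMeasure ((volume : Measure ℂ).restrict B) := by
    constructor
    rw [Measure.restrict_apply_univ]
    exact (isCompact_closedBall _ _).measure_lt_top
  have e : Gw ε w = fun x => ∫ v in B, aw ε w v * aw ε w (x - v) := by
    funext x
    unfold Gw
    symm
    apply setIntegral_eq_integral_of_forall_compl_eq_zero
    intro v hv
    simp only [hB, Metric.mem_closedBall, dist_zero_right, not_le] at hv
    rw [aw_zero hε w v hv.le, zero_mul]
  rw [e]
  refine BM.innerν (F := fun (x v : ℂ) => aw ε w v * aw ε w (x - v)) ?_ _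
  exact ((aw_bm hε w).comp (u := fun z : ℂ × ℂ => z.2) (by fun_prop)).mul
    ((aw_bm hε w).comp (u := fun z : ℂ × ℂ => z.1 - z.2) (by fun_prop))

/-- Weighted increment functional. -/
noncomputable def ZZ (ζ : ℝ → ℂ) (ε : ℝ) (α β : ℝ → ℂ) (w : ℂ) : ℂ :=
  ∫ s in (0 : ℝ)..1, ∫ τ in (0 : ℝ)..(1 / 2),
    (β (s + τ) - β s) * (α s * Gw ε w (ζ (s + τ) - ζ s))

lemma ZZ_eq (L : Loop ζ T S r) {ε : ℝ} (hε : 0 < ε) (hεr : 2 * ε ≤ r) {α β m : ℝ → ℂ}
    (hα : BM α) (hαp : Function.Periodic α 1) {n : ℕ} {J : ℕ → ℂ} {c : ℕ → ℝ}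
    (hβ : Rep β m n J c) (w : ℂ) :
    ZZ ζ ε α β w = (∫ p in (0 : ℝ)..1, m p * Bk ζ ε α w p)
      + ∑ k ∈ Finset.range n, J k * Bk ζ ε α w (c k) := by
  have hζ := L.cont
  set K : ℝ → ℝ → ℂ := fun s t => α s * Gw ε w (ζ t - ζ s) with hKdef
  have bK : BM (Function.uncurry K) :=
    (hα.comp measurable_fst).mul ((Gw_bm hε w).comp (u := fun q : ℝ × ℝ => ζ q.2 - ζ q.1)
      (by fun_prop))
  have pK : ∀ s t, K (s + 1) (t + 1) = K s t := by
    intro s t
    simp only [hKdef, hαp s, L.per s, L.per t]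
  have zK : ∀ s t, 1 / 4 ≤ t - s → t - s ≤ 1 / 2 → K s t = 0 := by
    intro s t h1 h2
    simp only [hKdef]
    rw [Gw_zero hε, mul_zero]
    have := L.sep s (t - s) h1 h2
    rw [add_sub_cancel] at this
    linarith
  have hJ := jump bK pK zK
  have hBk : ∀ p, Bk ζ ε α w p
      = ∫ s in (0 : ℝ)..1, ∫ τ in (0 : ℝ)..(1 / 2), Nf p s (s + τ) * K s (s + τ) := by
    intro p
    rw [hJ p]
    rfl
  -- pieces
  have b0 : BM (fun q : (ℝ × ℝ) × ℝ => (m q.2 * Nf q.2 q.1.1 (q.1.1 + q.1.2))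
      * K q.1.1 (q.1.1 + q.1.2)) :=
    ((hβ.bm.comp (u := fun q : (ℝ × ℝ) × ℝ => q.2) (by fun_prop)).mul
      (Nf_bm.comp (u := fun q : (ℝ × ℝ) × ℝ => (q.2, q.1.1, q.1.1 + q.1.2)) (by fun_prop))).mul
      (bK.comp (u := fun q : (ℝ × ℝ) × ℝ => (q.1.1, q.1.1 + q.1.2)) (by fun_prop))
  have b1 : BM (Function.uncurry fun s τ : ℝ => ∫ p in (0 : ℝ)..1,
      (m p * Nf p s (s + τ)) * K s (s + τ)) :=
    BM.inner (F := fun (q : ℝ × ℝ) (p : ℝ) => (m p * Nf p q.1 (q.1 + q.2)) * K q.1 (q.1 + q.2))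
      b0 0 1
  have b2 : ∀ k, BM (Function.uncurry fun s τ : ℝ => J k * (Nf (c k) s (s + τ) * K s (s + τ))) := by
    intro k
    exact (BM.const (J k)).mul
      ((Nf_bm.comp (u := fun q : ℝ × ℝ => (c k, q.1, q.1 + q.2)) (by fun_prop)).mul
      (bK.comp (u := fun q : ℝ × ℝ => (q.1, q.1 + q.2)) (by fun_prop)))
  have pw : ∀ s τ, 0 ≤ τ → τ ≤ 1 / 2 → (β (s + τ) - β s) * (α s * Gw ε w (ζ (s + τ) - ζ s))
      = (∫ p in (0 : ℝ)..1, (m p * Nf p s (s + τ)) * K s (s + τ))
        + ∑ k ∈ Finset.range n, J k * (Nf (c k) s (s + τ) * K s (s + τ)) := by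
    intro s τ h0 h1
    rw [hβ.inc s τ h0 h1, int_cross hβ.bm hβ.per s τ h0 h1, add_mul,
      intervalIntegral.integral_mul_const, Finset.sum_mul]
    congr 1
    apply Finset.sum_congr rfl
    intro k _
    rw [floor_inc (c k) s τ h0 (by linarith)]
    simp only [hKdef]
    ring
  have bsum : BM (Function.uncurry fun s τ : ℝ =>
      ∑ k ∈ Finset.range n, J k * (Nf (c k) s (s + τ) * K s (s + τ))) := by
    have : ∀ N : ℕ, BM (fun q : ℝ × ℝ =>
        ∑ k ∈ Finset.range N, J k * (Nf (c k) q.1 (q.1 + q.2) * K q.1 (q.1 + q.2))) := by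
      intro N
      induction N with
      | zero => simpa using BM.const (X := ℝ × ℝ) 0
      | succ N ih =>
        simp only [Finset.sum_range_succ]
        exact ih.add (b2 N)
    exact this n
  have sl : ∀ {F : ℝ → ℝ → ℂ}, BM (Function.uncurry F) → ∀ s, BM (fun τ => F s τ) := by
    intro F hF s
    exact hF.comp (u := fun τ : ℝ => (s, τ)) (by fun_prop)
  have split : ZZ ζ ε α β w
      = (∫ s in (0 : ℝ)..1, ∫ τ in (0 : ℝ)..(1 / 2), ∫ p in (0 : ℝ)..1,
          (m p * Nf p s (s + τ)) * K s (s + τ))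
        + ∫ s in (0 : ℝ)..1, ∫ τ in (0 : ℝ)..(1 / 2),
          ∑ k ∈ Finset.range n, J k * (Nf (c k) s (s + τ) * K s (s + τ)) := by
    unfold ZZ
    rw [← intervalIntegral.integral_add ((b1.inner _ _).ii _ _) ((bsum.inner _ _).ii _ _)]
    apply intervalIntegral.integral_congr
    intro s _
    simp only
    rw [← intervalIntegral.integral_add ((sl b1 s).ii _ _) ((sl bsum s).ii _ _)]
    apply intervalIntegral.integral_congr
    intro τ hτ
    rw [uIcc_of_le (by norm_num)] at hτ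
    exact pw s τ hτ.1 hτ.2
  rw [split]
  congr 1
  · have sw1 : ∀ s, (∫ τ in (0 : ℝ)..(1 / 2), ∫ p in (0 : ℝ)..1,
          (m p * Nf p s (s + τ)) * K s (s + τ))
        = ∫ p in (0 : ℝ)..1, ∫ τ in (0 : ℝ)..(1 / 2), (m p * Nf p s (s + τ)) * K s (s + τ) := by
      intro s
      exact BM.swap (F := fun τ p => (m p * Nf p s (s + τ)) * K s (s + τ))
        (b0.comp (u := fun z : ℝ × ℝ => ((s, z.1), z.2)) (by fun_prop)) _ _ _ _
    simp only [sw1]
    have b3 : BM (Function.uncurry fun s p : ℝ => ∫ τ in (0 : ℝ)..(1 / 2),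
        (m p * Nf p s (s + τ)) * K s (s + τ)) :=
      BM.inner (F := fun (q : ℝ × ℝ) (τ : ℝ) => (m q.2 * Nf q.2 q.1 (q.1 + τ)) * K q.1 (q.1 + τ))
        (b0.comp (u := fun z : (ℝ × ℝ) × ℝ => ((z.1.1, z.2), z.1.2)) (by fun_prop)) 0 (1 / 2)
    rw [b3.swap]
    apply intervalIntegral.integral_congr
    intro p _
    simp only
    rw [hBk p, ← intervalIntegral.integral_const_mul]
    apply intervalIntegral.integral_congr
    intro s _
    simp only
    rw [← intervalIntegral.integral_const_mul]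
    apply intervalIntegral.integral_congr
    intro τ _
    simp only
    ring
  · have e1 : ∀ s, (∫ τ in (0 : ℝ)..(1 / 2),
          ∑ k ∈ Finset.range n, J k * (Nf (c k) s (s + τ) * K s (s + τ)))
        = ∑ k ∈ Finset.range n, ∫ τ in (0 : ℝ)..(1 / 2),
          J k * (Nf (c k) s (s + τ) * K s (s + τ)) := by
      intro s
      exact intervalIntegral.integral_finsetSum fun k _ => (sl (b2 k) s).ii _ _
    simp only [e1]
    rw [intervalIntegral.integral_finsetSum fun k _ => ((b2 k).inner _ _).ii _ _]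
    apply Finset.sum_congr rfl
    intro k _
    rw [hBk (c k), ← intervalIntegral.integral_const_mul]
    apply intervalIntegral.integral_congr
    intro s _
    simp only
    rw [← intervalIntegral.integral_const_mul]

lemma ZZ_sum [Countable ι] (L : Loop ζ T S r) (h : Tight ζ w A) {ε : ℝ} (hε : 0 < ε)
    (hεr : 2 * ε ≤ r) {α β m : ℝ → ℂ}
    (hα : BM α) (hαp : Function.Periodic α 1) {n : ℕ} {J : ℕ → ℂ} {c : ℕ → ℝ}
    (hβ : Rep β m n J c) : HasSum (fun i => ZZ ζ ε α β (w i)) 0 := by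
  simp only [ZZ_eq L hε hεr hα hαp hβ]
  have h1 : HasSum (fun i => ∫ p in (0 : ℝ)..1, m p * Bk ζ ε α (w i) p) 0 := by
    simp only [intervalIntegral.integral_of_le zero_le_one]
    have : IsFiniteMeasure (volume.restrict (Ioc (0 : ℝ) 1)) := by infer_instance
    exact Bk_sum L h hε hα _ hβ.bm
  have h2 : ∀ k, HasSum (fun i => J k * Bk ζ ε α (w i) (c k)) 0 := by
    intro k
    have h3 := Bk_sum L h hε hα (Measure.dirac (c k)) (BM.const 1)
    simp only [integral_dirac, one_mul] at h3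
    have := h3.mul_left (J k)
    simpa using this
  have h4 : HasSum (fun i => ∑ k ∈ Finset.range n, J k * Bk ζ ε α (w i) (c k))
      (∑ k ∈ Finset.range n, 0) := hasSum_sum fun k _ => h2 k
  have h5 := h1.add h4
  simpa using h5

end Pool.Agent.Q83.Curve
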