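import Pool.Agent.Q83.Curve.Basic

open MeasureTheory Complex Set
open scoped Real ComplexConjugate

namespace Pool.Agent.Q83.Curve

/-- The cross product of two plane vectors, as a complex number with zero imaginary part. -/
noncomputable def cr (a b : ℂ) : ℂ := ((a.re * b.im - a.im * b.re : ℝ) : ℂ)

/-- A closed plane curve of period one with velocity `T`. -/
structure Loop (ζ T : ℝ → ℂ) (S : Set ℝ) (r : ℝ) : Prop where
  cont : Continuous ζ
  per : Function.Periodic ζ 1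
  Tper : Function.Periodic T 1
  Tbm : BM T
  cnt : S.Countable
  der : ∀ t, t ∉ S → HasDerivAt ζ (T t) t
  Tcont : ∀ t, t ∉ S → ContinuousAt T t
  rpos : 0 < r
  sep : ∀ s τ, 1 / 4 ≤ τ → τ ≤ 1 / 2 → r ≤ ‖ζ (s + τ) - ζ s‖

/-- `g` is continuously differentiable with partial derivatives `g1`, `g2`, and it vanishes
outside the open ball of radius `r`. -/
structure C1 (g g1 g2 : ℂ → ℂ) (r : ℝ) : Prop where
  der : ∀ x, HasFDerivAt g (Complex.reCLM.smulRight (g1 x) + Complex.imCLM.smulRight (g2 x)) x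
  c1 : Continuous g1
  c2 : Continuous g2
  zero : ∀ x, r ≤ ‖x‖ → g x = 0
  zero1 : ∀ x, r ≤ ‖x‖ → g1 x = 0
  zero2 : ∀ x, r ≤ ‖x‖ → g2 x = 0

lemma bm_of_cont {g : ℂ → ℂ} (hg : Continuous g) {r : ℝ} (h0 : ∀ x, r ≤ ‖x‖ → g x = 0) :
    BM g := by
  refine ⟨hg.measurable, ?_⟩
  obtain ⟨C, hC⟩ := (isCompact_closedBall (0 : ℂ) r).exists_bound_of_continuousOn
    hg.continuousOn
  refine ⟨max C 0, fun x => ?_⟩
  by_cases hx : ‖x‖ ≤ r
  · exact (hC x (by simpa using hx)).trans (le_max_left _ _)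
  · rw [h0 x (by linarith)]
    simp

lemma C1.cont {g g1 g2 : ℂ → ℂ} {r : ℝ} (h : C1 g g1 g2 r) : Continuous g :=
  continuous_iff_continuousAt.2 fun x => (h.der x).continuousAt

lemma C1.bm {g g1 g2 : ℂ → ℂ} {r : ℝ} (h : C1 g g1 g2 r) : BM g := bm_of_cont h.cont h.zero
lemma C1.bm1 {g g1 g2 : ℂ → ℂ} {r : ℝ} (h : C1 g g1 g2 r) : BM g1 := bm_of_cont h.c1 h.zero1
lemma C1.bm2 {g g1 g2 : ℂ → ℂ} {r : ℝ} (h : C1 g g1 g2 r) : BM g2 := bm_of_cont h.c2 h.zero2

lemma C1.comp_deriv {g g1 g2 : ℂ → ℂ} {r : ℝ} (h : C1 g g1 g2 r) {x : ℝ → ℂ} {x' : ℂ} {t : ℝ}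
    (hx : HasDerivAt x x' t) :
    HasDerivAt (fun t => g (x t)) (x'.re * g1 (x t) + x'.im * g2 (x t)) t := by
  have := (h.der (x t)).comp_hasDerivAt t hx
  simpa [Function.comp_def] using this

lemma C1.translate {g g1 g2 : ℂ → ℂ} {r r' : ℝ} (h : C1 g g1 g2 r) (v : ℂ)
    (hv : r + ‖v‖ ≤ r') :
    C1 (fun x => g (x - v)) (fun x => g1 (x - v)) (fun x => g2 (x - v)) r' := by
  have key : ∀ x : ℂ, r' ≤ ‖x‖ → r ≤ ‖x - v‖ := by
    intro x hx
    have := norm_sub_norm_le x v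
    linarith
  refine ⟨fun x => ?_, ?_, ?_, fun x hx => h.zero _ (key x hx), fun x hx => h.zero1 _ (key x hx),
    fun x hx => h.zero2 _ (key x hx)⟩
  · have h1 : HasFDerivAt (fun x : ℂ => x - v) (ContinuousLinearMap.id ℝ ℂ) x :=
      (hasFDerivAt_id x).sub_const v
    have := (h.der (x - v)).comp x h1
    simpa [Function.comp_def] using this
  · have := h.c1; fun_prop
  · have := h.c2; fun_prop

variable {ζ T : ℝ → ℂ} {S : Set ℝ} {r : ℝ}

lemma bm_cr {X : Type*} [MeasurableSpace X] {f g : X → ℂ} (hf : BM f) (hg : BM g) :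
    BM (fun x => cr (f x) (g x)) := by
  have : (fun x => cr (f x) (g x))
      = fun x => ((f x).re : ℂ) * ((g x).im : ℂ) - ((f x).im : ℂ) * ((g x).re : ℂ) := by
    funext x; simp [cr]
  rw [this]
  exact (hf.re.mul hg.im).sub (hf.im.mul hg.re)

/-- The intersection functional. -/
noncomputable def IF (ζ T : ℝ → ℂ) (g : ℂ → ℂ) : ℂ :=
  ∫ s in (0 : ℝ)..1, ∫ τ in (0 : ℝ)..(1 / 2), cr (T s) (T (s + τ)) * g (ζ (s + τ) - ζ s)

lemma zeta_meas (L : Loop ζ T S r) : Measurable fun p : ℝ × ℝ => ζ (p.1 + p.2) - ζ p.1 := by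
  have := L.cont
  fun_prop

lemma bm_kernel (L : Loop ζ T S r) {g : ℂ → ℂ} (hg : BM g) :
    BM (Function.uncurry fun s τ : ℝ => cr (T s) (T (s + τ)) * g (ζ (s + τ) - ζ s)) :=
  (bm_cr (L.Tbm.comp (u := fun p : ℝ × ℝ => p.1) (by fun_prop))
    (L.Tbm.comp (u := fun p : ℝ × ℝ => p.1 + p.2) (by fun_prop))).mul (hg.comp (zeta_meas L))

lemma IF_sub (L : Loop ζ T S r) {g h : ℂ → ℂ} (hg : BM g) (hh : BM h) :
    IF ζ T (fun x => g x - h x) = IF ζ T g - IF ζ T h := by
  unfold IF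
  have hg' := bm_kernel L hg
  have hh' := bm_kernel L hh
  rw [← intervalIntegral.integral_sub ((hg'.inner _ _).ii _ _) ((hh'.inner _ _).ii _ _)]
  apply intervalIntegral.integral_congr
  intro s _
  simp only
  rw [← intervalIntegral.integral_sub]
  · apply intervalIntegral.integral_congr
    intro τ _
    simp only
    ring
  · exact (hg'.comp (u := fun τ : ℝ => (s, τ)) (by fun_prop)).ii _ _
  · exact (hh'.comp (u := fun τ : ℝ => (s, τ)) (by fun_prop)).ii _ _

lemma T_integral (L : Loop ζ T S r) : ∫ t in (0 : ℝ)..1, T t = 0 := by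
  rw [integral_eq_of_hasDerivAt_off_countable ζ T L.cnt L.cont.continuousOn
    (fun x hx => L.der x hx.2) (L.Tbm.ii _ _)]
  have := L.per 0
  rw [zero_add] at this
  rw [this, sub_self]

lemma cr_integral (L : Loop ζ T S r) (v : ℂ) :
    (∫ t in (0 : ℝ)..1, cr v (T t)) = 0 := by
  have h : ∀ t, cr v (T t) = (((starRingEnd ℂ v) * T t).im : ℂ) := by
    intro t
    simp [cr, Complex.mul_im]
    ring
  simp only [h]
  rw [intervalIntegral.integral_ofReal]
  have h2 : ∫ t in (0 : ℝ)..1, ((starRingEnd ℂ v) * T t).im = 0 := by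
    have h3 : IntervalIntegrable (fun t => (starRingEnd ℂ v) * T t) volume 0 1 :=
      ((BM.const _).mul L.Tbm).ii _ _
    have h4 := Complex.imCLM.intervalIntegral_comp_comm h3
    simp only [Complex.imCLM_apply] at h4
    rw [h4, intervalIntegral.integral_const_mul, T_integral L]
    simp
  rw [h2]
  simp

lemma cr_integral' (L : Loop ζ T S r) (v : ℂ) :
    (∫ t in (0 : ℝ)..1, cr (T t) v) = 0 := by
  have h : ∀ t, cr (T t) v = - cr v (T t) := by
    intro t
    simp only [cr]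
    push_cast
    ring
  simp only [h]
  rw [intervalIntegral.integral_neg, cr_integral L, neg_zero]

lemma half_ne (L : Loop ζ T S r) (s : ℝ) : r ≤ ‖ζ (s + 1 / 2) - ζ s‖ :=
  L.sep s (1 / 2) (by norm_num) le_rfl

/-- countability of shifted exceptional sets -/
lemma cnt_shift (L : Loop ζ T S r) (s : ℝ) : {τ : ℝ | s + τ ∈ S}.Countable :=
  L.cnt.preimage (add_right_injective s)

lemma cnt_shift' (L : Loop ζ T S r) (t : ℝ) : {τ : ℝ | t - τ ∈ S}.Countable :=
  L.cnt.preimage (sub_right_injective)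

/-- The functional kills derivatives. -/
lemma IF_deriv (L : Loop ζ T S r) {g g1 g2 : ℂ → ℂ} (h : C1 g g1 g2 r) (v : ℂ) :
    IF ζ T (fun x => v.re * g1 x + v.im * g2 x) = 0 := by
  -- the two parts
  set P : ℝ → ℝ → ℂ := fun s t =>
    cr v (T t) * ((T s).re * g1 (ζ t - ζ s) + (T s).im * g2 (ζ t - ζ s)) with hP
  set Q : ℝ → ℝ → ℂ := fun s t =>
    cr (T s) v * ((T t).re * g1 (ζ t - ζ s) + (T t).im * g2 (ζ t - ζ s)) with hQ
  have hζ := L.cont
  have mz : Measurable fun p : ℝ × ℝ => ζ p.2 - ζ p.1 := by fun_prop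
  have b1 : BM fun p : ℝ × ℝ => g1 (ζ p.2 - ζ p.1) := h.bm1.comp mz
  have b2 : BM fun p : ℝ × ℝ => g2 (ζ p.2 - ζ p.1) := h.bm2.comp mz
  have bT1 : BM fun p : ℝ × ℝ => T p.1 := L.Tbm.comp measurable_fst
  have bT2 : BM fun p : ℝ × ℝ => T p.2 := L.Tbm.comp measurable_snd
  have bP : BM (Function.uncurry P) :=
    (bm_cr (BM.const v) bT2).mul ((bT1.re.mul b1).add (bT1.im.mul b2))
  have bQ : BM (Function.uncurry Q) :=
    (bm_cr bT1 (BM.const v)).mul ((bT2.re.mul b1).add (bT2.im.mul b2))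
  have bP' : BM (Function.uncurry fun s τ : ℝ => P s (s + τ)) :=
    bP.comp (u := fun p : ℝ × ℝ => (p.1, p.1 + p.2)) (by fun_prop)
  have bQ' : BM (Function.uncurry fun s τ : ℝ => Q s (s + τ)) :=
    bQ.comp (u := fun p : ℝ × ℝ => (p.1, p.1 + p.2)) (by fun_prop)
  have split : IF ζ T (fun x => v.re * g1 x + v.im * g2 x)
      = (∫ s in (0 : ℝ)..1, ∫ τ in (0 : ℝ)..(1 / 2), P s (s + τ))
        + ∫ s in (0 : ℝ)..1, ∫ τ in (0 : ℝ)..(1 / 2), Q s (s + τ) := by
    unfold IF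
    rw [← intervalIntegral.integral_add ((bP'.inner _ _).ii _ _) ((bQ'.inner _ _).ii _ _)]
    apply intervalIntegral.integral_congr
    intro s _
    simp only
    rw [← intervalIntegral.integral_add]
    · apply intervalIntegral.integral_congr
      intro τ _
      simp only [hP, hQ, cr]
      push_cast
      ring
    · exact (bP'.comp (u := fun τ : ℝ => (s, τ)) (by fun_prop)).ii _ _
    · exact (bQ'.comp (u := fun τ : ℝ => (s, τ)) (by fun_prop)).ii _ _
  rw [split]
  have e1 : ∫ s in (0 : ℝ)..1, ∫ τ in (0 : ℝ)..(1 / 2), P s (s + τ) = 0 := by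
    rw [shift_two bP]
    · have : ∀ t, ∫ τ in (0 : ℝ)..(1 / 2), P (t - τ) t = cr v (T t) * (- g 0) := by
        intro t
        simp only [hP]
        rw [intervalIntegral.integral_const_mul]
        congr 1
        rw [integral_eq_of_hasDerivAt_off_countable (fun τ => g (ζ t - ζ (t - τ)))
          (fun τ => (T (t - τ)).re * g1 (ζ t - ζ (t - τ)) + (T (t - τ)).im * g2 (ζ t - ζ (t - τ)))
          (cnt_shift' L t)]
        · have h0 : g (ζ t - ζ (t - 1 / 2)) = 0 := by
            apply h.zero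
            have := half_ne L (t - 1 / 2)
            rwa [sub_add_cancel] at this
          rw [h0]
          simp
        · have := h.cont
          fun_prop
        · intro τ hτ
          have hd : HasDerivAt (fun τ => ζ t - ζ (t - τ)) (T (t - τ)) τ := by
            have h1 := (L.der (t - τ) hτ.2).scomp τ ((hasDerivAt_id τ).const_sub t)
            have h2 := h1.const_sub (ζ t)
            simpa [Function.comp_def] using h2
          exact h.comp_deriv hd
        · exact (((bT1.re.mul b1).add (bT1.im.mul b2)).comp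
            (u := fun τ : ℝ => (t - τ, t)) (by fun_prop)).ii _ _
      simp only [this]
      rw [intervalIntegral.integral_mul_const, cr_integral L, zero_mul]
    · intro s t
      simp only [hP, L.per s, L.per t, L.Tper s, L.Tper t]
  have e2 : ∫ s in (0 : ℝ)..1, ∫ τ in (0 : ℝ)..(1 / 2), Q s (s + τ) = 0 := by
    have : ∀ s, ∫ τ in (0 : ℝ)..(1 / 2), Q s (s + τ) = cr (T s) v * (- g 0) := by
      intro s
      simp only [hQ]
      rw [intervalIntegral.integral_const_mul]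
      congr 1
      rw [integral_eq_of_hasDerivAt_off_countable (fun τ => g (ζ (s + τ) - ζ s))
        (fun τ => (T (s + τ)).re * g1 (ζ (s + τ) - ζ s) + (T (s + τ)).im * g2 (ζ (s + τ) - ζ s))
        (cnt_shift L s)]
      · rw [h.zero _ (half_ne L s)]
        simp
      · have := h.cont
        fun_prop
      · intro τ hτ
        have hd : HasDerivAt (fun τ => ζ (s + τ) - ζ s) (T (s + τ)) τ := by
          have h1 := (L.der (s + τ) hτ.2).scomp τ ((hasDerivAt_id τ).const_add s)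
          have h2 := h1.sub_const (ζ s)
          simpa [Function.comp_def] using h2
        exact h.comp_deriv hd
      · exact (((bT2.re.mul b1).add (bT2.im.mul b2)).comp
          (u := fun τ : ℝ => (s, s + τ)) (by fun_prop)).ii _ _
    simp only [this]
    rw [intervalIntegral.integral_mul_const, cr_integral' L, zero_mul]
  rw [e1, e2, add_zero]

/-- Translation invariance of the functional. -/
lemma IF_translate (L : Loop ζ T S r) {g g1 g2 : ℂ → ℂ} {ρ : ℝ} (h : C1 g g1 g2 ρ) (v : ℂ)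
    (hv : ρ + ‖v‖ ≤ r) : IF ζ T (fun x => g (x - v)) = IF ζ T g := by
  have hζ := L.cont
  set D : ℂ → ℂ := fun x => v.re * g1 x + v.im * g2 x with hD
  have bD : BM D := ((BM.const _).mul h.bm1).add ((BM.const _).mul h.bm2)
  -- fundamental theorem in the translation parameter
  have ftc : ∀ x : ℂ, g (x - v) - g x = - ∫ θ in (0 : ℝ)..1, D (x - θ * v) := by
    intro x
    have hd : ∀ θ ∈ uIcc (0 : ℝ) 1, HasDerivAt (fun θ : ℝ => g (x - θ * v)) (- D (x - θ * v)) θ := by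
      intro θ _
      have h1 : HasDerivAt (fun θ : ℝ => x - (θ : ℂ) * v) (-v) θ := by
        have := ((hasDerivAt_id θ).ofReal_comp.mul_const v).const_sub x
        simpa using this
      have h2 := h.comp_deriv h1
      convert h2 using 1
      simp [hD]
      ring
    have hc : Continuous (fun θ : ℝ => - D (x - θ * v)) := by
      have := h.c1
      have := h.c2
      simp only [hD]
      fun_prop
    have := intervalIntegral.integral_eq_sub_of_hasDerivAt hd (hc.intervalIntegrable _ _)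
    rw [intervalIntegral.integral_neg] at this
    rw [this]
    simp
  have bg : BM g := h.bm
  have bgv : BM (fun x => g (x - v)) := bg.comp (by fun_prop)
  have hsub := IF_sub L bgv bg
  have hz : IF ζ T (fun x => g (x - v) - g x) = 0 := by
    have e : (fun x => g (x - v) - g x) = fun x => - ∫ θ in (0 : ℝ)..1, D (x - θ * v) := by
      funext x; exact ftc x
    rw [e]
    unfold IF
    -- joint kernel
    have bT1 : BM fun p : (ℝ × ℝ) × ℝ => T p.1.1 := L.Tbm.comp (by fun_prop)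
    have bT2 : BM fun p : (ℝ × ℝ) × ℝ => T (p.1.1 + p.1.2) := L.Tbm.comp (by fun_prop)
    have b3 : BM fun p : (ℝ × ℝ) × ℝ =>
        cr (T p.1.1) (T (p.1.1 + p.1.2)) * D (ζ (p.1.1 + p.1.2) - ζ p.1.1 - p.2 * v) :=
      (bm_cr bT1 bT2).mul (bD.comp (by fun_prop))
    have e2 : ∀ s τ : ℝ, cr (T s) (T (s + τ)) * (- ∫ θ in (0 : ℝ)..1, D (ζ (s + τ) - ζ s - θ * v))
        = - ∫ θ in (0 : ℝ)..1, cr (T s) (T (s + τ)) * D (ζ (s + τ) - ζ s - θ * v) := by
      intro s τ
      rw [intervalIntegral.integral_const_mul]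
      ring
    simp only [e2, intervalIntegral.integral_neg]
    rw [neg_eq_zero]
    have sw1 : ∀ s : ℝ, (∫ τ in (0 : ℝ)..(1 / 2), ∫ θ in (0 : ℝ)..1,
        cr (T s) (T (s + τ)) * D (ζ (s + τ) - ζ s - θ * v))
        = ∫ θ in (0 : ℝ)..1, ∫ τ in (0 : ℝ)..(1 / 2),
          cr (T s) (T (s + τ)) * D (ζ (s + τ) - ζ s - θ * v) := by
      intro s
      exact BM.swap (F := fun τ θ : ℝ => cr (T s) (T (s + τ)) * D (ζ (s + τ) - ζ s - θ * v))
        (b3.comp (u := fun p : ℝ × ℝ => ((s, p.1), p.2)) (by fun_prop)) _ _ _ _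
    simp only [sw1]
    have b4 : BM (Function.uncurry fun s θ : ℝ => ∫ τ in (0 : ℝ)..(1 / 2),
          cr (T s) (T (s + τ)) * D (ζ (s + τ) - ζ s - θ * v)) :=
      BM.inner (F := fun (q : ℝ × ℝ) (τ : ℝ) =>
          cr (T q.1) (T (q.1 + τ)) * D (ζ (q.1 + τ) - ζ q.1 - q.2 * v))
        (b3.comp (u := fun p : (ℝ × ℝ) × ℝ => ((p.1.1, p.2), p.1.2)) (by fun_prop)) 0 (1 / 2)
    rw [b4.swap]
    have e5 : ∀ θ ∈ uIcc (0 : ℝ) 1, (∫ s in (0 : ℝ)..1, ∫ τ in (0 : ℝ)..(1 / 2),
          cr (T s) (T (s + τ)) * D (ζ (s + τ) - ζ s - θ * v)) = 0 := by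
      intro θ hθ
      rw [uIcc_of_le zero_le_one] at hθ
      have hθv : ρ + ‖(θ : ℂ) * v‖ ≤ r := by
        rw [norm_mul, Complex.norm_real, Real.norm_of_nonneg hθ.1]
        have := mul_le_mul_of_nonneg_right hθ.2 (norm_nonneg v)
        linarith
      have := IF_deriv L (h.translate ((θ : ℂ) * v) hθv) v
      exact this
    rw [intervalIntegral.integral_congr e5]
    simp
  rw [hz] at hsub
  exact (sub_eq_zero.1 hsub.symm)

lemma IF_avg (L : Loop ζ T S r) {g g1 g2 : ℂ → ℂ} (h : C1 g g1 g2 (r / 2)) {χ : ℂ → ℂ}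
    (hχ : BM χ) (hχ0 : ∀ x, r / 2 ≤ ‖x‖ → χ x = 0) :
    IF ζ T (fun x => ∫ v, χ v * g (x - v)) = IF ζ T g * ∫ v, χ v := by
  have hζ := L.cont
  set B : Set ℂ := Metric.closedBall 0 (r / 2) with hB
  have fin : IsFiniteMeasure ((volume : Measure ℂ).restrict B) := by
    constructor
    rw [Measure.restrict_apply_univ]
    exact (isCompact_closedBall _ _).measure_lt_top
  have hout : ∀ v, v ∉ B → χ v = 0 := by
    intro v hv
    apply hχ0
    simp only [hB, Metric.mem_closedBall, dist_zero_right, not_le] at hv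
    exact hv.le
  have toB : ∀ f : ℂ → ℂ, (∫ v, χ v * f v) = ∫ v in B, χ v * f v := by
    intro f
    symm
    apply setIntegral_eq_integral_of_forall_compl_eq_zero
    intro v hv
    rw [hout v hv, zero_mul]
  have toB' : (∫ v, χ v) = ∫ v in B, χ v := by
    have := toB (fun _ => 1)
    simpa using this
  simp only [toB, toB']
  unfold IF
  have bT1 : BM fun p : (ℝ × ℝ) × ℂ => T p.1.1 := L.Tbm.comp (by fun_prop)
  have bT2 : BM fun p : (ℝ × ℝ) × ℂ => T (p.1.1 + p.1.2) := L.Tbm.comp (by fun_prop)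
  have b3 : BM fun p : (ℝ × ℝ) × ℂ =>
      cr (T p.1.1) (T (p.1.1 + p.1.2)) * (χ p.2 * g (ζ (p.1.1 + p.1.2) - ζ p.1.1 - p.2)) :=
    (bm_cr bT1 bT2).mul ((hχ.comp (by fun_prop)).mul (h.bm.comp (by fun_prop)))
  have e2 : ∀ s τ : ℝ, cr (T s) (T (s + τ)) * (∫ v in B, χ v * g (ζ (s + τ) - ζ s - v))
      = ∫ v in B, cr (T s) (T (s + τ)) * (χ v * g (ζ (s + τ) - ζ s - v)) := by
    intro s τ
    rw [integral_const_mul]
  simp only [e2]
  have sw1 : ∀ s : ℝ, (∫ τ in (0 : ℝ)..(1 / 2), ∫ v in B,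
      cr (T s) (T (s + τ)) * (χ v * g (ζ (s + τ) - ζ s - v)))
      = ∫ v in B, ∫ τ in (0 : ℝ)..(1 / 2),
        cr (T s) (T (s + τ)) * (χ v * g (ζ (s + τ) - ζ s - v)) := by
    intro s
    exact BM.swapν (F := fun (τ : ℝ) (v : ℂ) =>
        cr (T s) (T (s + τ)) * (χ v * g (ζ (s + τ) - ζ s - v)))
      (b3.comp (u := fun p : ℝ × ℂ => ((s, p.1), p.2)) (by fun_prop)) _ _ _
  simp only [sw1]
  have b4 : BM (Function.uncurry fun (s : ℝ) (v : ℂ) => ∫ τ in (0 : ℝ)..(1 / 2),
        cr (T s) (T (s + τ)) * (χ v * g (ζ (s + τ) - ζ s - v))) :=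
    BM.inner (F := fun (q : ℝ × ℂ) (τ : ℝ) =>
        cr (T q.1) (T (q.1 + τ)) * (χ q.2 * g (ζ (q.1 + τ) - ζ q.1 - q.2)))
      (b3.comp (u := fun p : (ℝ × ℂ) × ℝ => ((p.1.1, p.2), p.1.2)) (by fun_prop)) 0 (1 / 2)
  rw [b4.swapν]
  have e5 : ∀ v, v ∈ B → (∫ s in (0 : ℝ)..1, ∫ τ in (0 : ℝ)..(1 / 2),
        cr (T s) (T (s + τ)) * (χ v * g (ζ (s + τ) - ζ s - v)))
      = (IF ζ T g) * χ v := by
    intro v hv
    have hv' : r / 2 + ‖v‖ ≤ r := by
      simp only [hB, Metric.mem_closedBall, dist_zero_right] at hv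
      linarith
    have h1 := IF_translate L h v hv'
    have h2 : ∀ s τ : ℝ, cr (T s) (T (s + τ)) * (χ v * g (ζ (s + τ) - ζ s - v))
        = χ v * (cr (T s) (T (s + τ)) * g (ζ (s + τ) - ζ s - v)) := by
      intro s τ; ring
    simp only [h2, intervalIntegral.integral_const_mul]
    rw [mul_comm]
    congr 1
  rw [setIntegral_congr_fun measurableSet_closedBall (fun v hv => e5 v hv)]
  rw [integral_const_mul]
  rfl

lemma conv_symm (g χ : ℂ → ℂ) (x : ℂ) :
    ∫ v, χ v * g (x - v) = ∫ v, g v * χ (x - v) := by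
  rw [← integral_sub_left_eq_self (fun v => g v * χ (x - v)) volume x]
  congr 1
  funext v
  rw [sub_sub_cancel, mul_comm]

/-- The functional is a multiple of the integral. -/
lemma IF_prop (L : Loop ζ T S r) {g g1 g2 χ χ1 χ2 : ℂ → ℂ} (h : C1 g g1 g2 (r / 2))
    (hχ : C1 χ χ1 χ2 (r / 2)) :
    IF ζ T g * ∫ v, χ v = IF ζ T χ * ∫ v, g v := by
  rw [← IF_avg L h hχ.bm hχ.zero, ← IF_avg L hχ h.bm h.zero]
  congr 1
  funext x
  exact conv_symm g χ x

end Pool.Agent.Q83.Curve
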