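import Pool.Agent.Q83.Curve.Frame

open MeasureTheory Complex Set
open scoped Real ComplexConjugate

namespace Pool.Agent.Q83.Curve

lemma bmp_even (ε : ℝ) (x : ℂ) : bmp ε (-x) = bmp ε x := by
  simp [bmp]

lemma bmp_conj (ε : ℝ) (x : ℂ) : conj (bmp ε x) = bmp ε x := by
  simp only [bmp, Complex.conj_ofReal]

lemma bmp_cont (ε : ℝ) : Continuous (bmp ε) := by
  unfold bmp; fun_prop

/-- modulated bump -/
noncomputable def aw (ε : ℝ) (w x : ℂ) : ℂ := bmp ε x * ee w x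

/-- self-convolution of the modulated bump -/
noncomputable def Gw (ε : ℝ) (w x : ℂ) : ℂ := ∫ v, aw ε w v * aw ε w (x - v)

lemma Gw_eq (ε : ℝ) (w t s : ℂ) :
    Gw ε w (t - s) = (ee w t * conj (ee w s)) * ∫ y, bmp ε (t - y) * bmp ε (s - y) := by
  unfold Gw aw
  have e1 : ∀ v : ℂ, bmp ε v * ee w v * (bmp ε (t - s - v) * ee w (t - s - v))
      = ee w (t - s) * (bmp ε v * bmp ε (t - s - v)) := by
    intro v
    have : ee w (t - s) = ee w v * ee w (t - s - v) := by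
      rw [← ee_add]; ring_nf
    rw [this]; ring
  simp only [e1]
  rw [integral_const_mul, ee_sub]
  congr 1
  rw [← integral_sub_left_eq_self (fun v => bmp ε v * bmp ε (t - s - v)) volume t]
  congr 1
  funext y
  rw [show t - s - (t - y) = -(s - y) by ring, bmp_even]

lemma aw_zero {ε : ℝ} (hε : 0 < ε) (w x : ℂ) (hx : ε ≤ ‖x‖) : aw ε w x = 0 := by
  unfold aw
  rw [(bmp_C1 hε).zero x hx, zero_mul]

lemma Gw_zero {ε : ℝ} (hε : 0 < ε) (w x : ℂ) (hx : 2 * ε ≤ ‖x‖) : Gw ε w x = 0 := by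
  unfold Gw
  rw [← integral_zero ℂ ℂ (μ := volume)]
  congr 1
  funext v
  by_cases hv : ε ≤ ‖v‖
  · rw [aw_zero hε w v hv, zero_mul]
  · push Not at hv
    have := norm_sub_norm_le x v
    rw [aw_zero hε w (x - v) (by linarith), mul_zero]

variable {ι : Type*} {ζ T : ℝ → ℂ} {S : Set ℝ} {r : ℝ} {w : ι → ℂ} {A : ℝ}

lemma zeta_bm (L : Loop ζ T S r) : BM ζ := by
  have hζ := L.cont
  refine ⟨hζ.measurable, ?_⟩
  obtain ⟨C, hC⟩ := (isCompact_Icc (a := (0 : ℝ)) (b := 1)).exists_bound_of_continuousOn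
    hζ.continuousOn
  refine ⟨C, fun t => ?_⟩
  obtain ⟨y, hy, hty⟩ := L.per.exists_mem_Ico₀ one_pos t
  rw [hty]
  exact hC y ⟨hy.1, hy.2.le⟩

/-- left window coefficient -/
noncomputable def XX (ζ : ℝ → ℂ) (ε : ℝ) (α : ℝ → ℂ) (w : ℂ) (p : ℝ) (y : ℂ) : ℂ :=
  ∫ u in (0 : ℝ)..(1 / 4), (α (p - u) * bmp ε (ζ (p - u) - y)) * conj (ee w (ζ (p - u)))

/-- right window coefficient -/
noncomputable def YY (ζ : ℝ → ℂ) (ε : ℝ) (w : ℂ) (p : ℝ) (y : ℂ) : ℂ :=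
  ∫ u in (0 : ℝ)..(1 / 4), bmp ε (ζ (p + u) - y) * conj (ee w (ζ (p + u)))

/-- two sided block at `p` -/
noncomputable def Bk (ζ : ℝ → ℂ) (ε : ℝ) (α : ℝ → ℂ) (w : ℂ) (p : ℝ) : ℂ :=
  ∫ a in (0 : ℝ)..(1 / 4), ∫ b in (0 : ℝ)..(1 / 4), α (p - a) * Gw ε w (ζ (p + b) - ζ (p - a))

lemma bmp_bm {ε : ℝ} (hε : 0 < ε) : BM (bmp ε) := (bmp_C1 hε).bm

lemma conj_ii (f : ℝ → ℂ) (a b : ℝ) :
    conj (∫ t in a..b, f t) = ∫ t in a..b, conj (f t) := by
  simp only [intervalIntegral, map_sub, ← integral_conj]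

lemma XX_bm (L : Loop ζ T S r) {ε : ℝ} (hε : 0 < ε) {α : ℝ → ℂ} (hα : BM α) (w : ℂ) :
    BM (fun q : ℝ × ℂ => XX ζ ε α w q.1 q.2) := by
  have hζ := L.cont
  refine BM.inner (F := fun (q : ℝ × ℂ) (u : ℝ) =>
    (α (q.1 - u) * bmp ε (ζ (q.1 - u) - q.2)) * conj (ee w (ζ (q.1 - u)))) ?_ _ _
  refine ((hα.comp (u := fun z : (ℝ × ℂ) × ℝ => z.1.1 - z.2) (by fun_prop)).mul
    ((bmp_bm hε).comp (u := fun z : (ℝ × ℂ) × ℝ => ζ (z.1.1 - z.2) - z.1.2) (by fun_prop))).mul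
    ((ee_bm w).comp (u := fun z : (ℝ × ℂ) × ℝ => ζ (z.1.1 - z.2)) (by fun_prop)).conj

lemma YY_bm (L : Loop ζ T S r) {ε : ℝ} (hε : 0 < ε) (w : ℂ) :
    BM (fun q : ℝ × ℂ => YY ζ ε w q.1 q.2) := by
  have hζ := L.cont
  refine BM.inner (F := fun (q : ℝ × ℂ) (u : ℝ) =>
    (bmp ε (ζ (q.1 + u) - q.2)) * conj (ee w (ζ (q.1 + u)))) ?_ _ _
  refine ((bmp_bm hε).comp (u := fun z : (ℝ × ℂ) × ℝ => ζ (z.1.1 + z.2) - z.1.2)
    (by fun_prop)).mul
    ((ee_bm w).comp (u := fun z : (ℝ × ℂ) × ℝ => ζ (z.1.1 + z.2)) (by fun_prop)).conj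

/-- The block as an integral of products of window coefficients. -/
lemma Bk_eq (L : Loop ζ T S r) {ε : ℝ} (hε : 0 < ε) {α : ℝ → ℂ} (hα : BM α) (w : ℂ) (p : ℝ)
    {R : ℝ} (hR : ∀ t, ‖ζ t‖ + ε ≤ R) :
    Bk ζ ε α w p = ∫ y in Metric.closedBall (0 : ℂ) R, XX ζ ε α w p y * conj (YY ζ ε w p y) := by
  have hζ := L.cont
  set B : Set ℂ := Metric.closedBall 0 R with hB
  have fin : IsFiniteMeasure ((volume : Measure ℂ).restrict B) := by
    constructor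
    rw [Measure.restrict_apply_univ]
    exact (isCompact_closedBall _ _).measure_lt_top
  have toB : ∀ t s : ℝ, (∫ y, bmp ε (ζ t - y) * bmp ε (ζ s - y))
      = ∫ y in B, bmp ε (ζ t - y) * bmp ε (ζ s - y) := by
    intro t s
    symm
    apply setIntegral_eq_integral_of_forall_compl_eq_zero
    intro y hy
    simp only [hB, Metric.mem_closedBall, dist_zero_right, not_le] at hy
    have h1 := norm_sub_norm_le y (ζ t)
    have h2 := hR t
    rw [norm_sub_rev] at h1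
    rw [(bmp_C1 hε).zero (ζ t - y) (by linarith), zero_mul]
  unfold Bk
  -- the joint kernel
  set K : ℝ → ℝ → ℂ → ℂ := fun a b y =>
    ((α (p - a) * bmp ε (ζ (p - a) - y)) * conj (ee w (ζ (p - a))))
      * (bmp ε (ζ (p + b) - y) * ee w (ζ (p + b))) with hK
  have bK : BM (fun z : (ℝ × ℝ) × ℂ => K z.1.1 z.1.2 z.2) := by
    refine (((hα.comp (u := fun z : (ℝ × ℝ) × ℂ => p - z.1.1) (by fun_prop)).mul
      ((bmp_bm hε).comp (u := fun z : (ℝ × ℝ) × ℂ => ζ (p - z.1.1) - z.2) (by fun_prop))).mul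
      ((ee_bm w).comp (u := fun z : (ℝ × ℝ) × ℂ => ζ (p - z.1.1)) (by fun_prop)).conj).mul
      (((bmp_bm hε).comp (u := fun z : (ℝ × ℝ) × ℂ => ζ (p + z.1.2) - z.2) (by fun_prop)).mul
      ((ee_bm w).comp (u := fun z : (ℝ × ℝ) × ℂ => ζ (p + z.1.2)) (by fun_prop)))
  have e1 : ∀ a b : ℝ, α (p - a) * Gw ε w (ζ (p + b) - ζ (p - a)) = ∫ y in B, K a b y := by
    intro a b
    rw [Gw_eq, toB, ← mul_assoc, ← integral_const_mul]
    congr 1
    funext y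
    simp only [hK]
    ring
  simp only [e1]
  have e2 : ∀ a : ℝ, (∫ b in (0 : ℝ)..(1 / 4), ∫ y in B, K a b y)
      = ∫ y in B, ∫ b in (0 : ℝ)..(1 / 4), K a b y := by
    intro a
    exact BM.swapν (F := fun b y => K a b y)
      (bK.comp (u := fun z : ℝ × ℂ => ((a, z.1), z.2)) (by fun_prop)) _ _ _
  simp only [e2]
  have b3 : BM (Function.uncurry fun (a : ℝ) (y : ℂ) => ∫ b in (0 : ℝ)..(1 / 4), K a b y) :=
    BM.inner (F := fun (q : ℝ × ℂ) (b : ℝ) => K q.1 b q.2)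
      (bK.comp (u := fun z : (ℝ × ℂ) × ℝ => ((z.1.1, z.2), z.1.2)) (by fun_prop)) _ _
  rw [b3.swapν]
  congr 1
  funext y
  have e3 : ∀ a : ℝ, (∫ b in (0 : ℝ)..(1 / 4), K a b y)
      = ((α (p - a) * bmp ε (ζ (p - a) - y)) * conj (ee w (ζ (p - a)))) * conj (YY ζ ε w p y) := by
    intro a
    simp only [hK]
    rw [intervalIntegral.integral_const_mul]
    congr 1
    unfold YY
    rw [conj_ii]
    apply intervalIntegral.integral_congr
    intro b _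
    simp only
    rw [map_mul, bmp_conj, Complex.conj_conj]
  simp only [e3]
  rw [intervalIntegral.integral_mul_const]
  rfl

/-- Sums over the frame of averaged blocks vanish. -/
lemma Bk_sum [Countable ι] (L : Loop ζ T S r) (h : Tight ζ w A) {ε : ℝ} (hε : 0 < ε)
    {α : ℝ → ℂ} (hα : BM α) (pm : Measure ℝ) [IsFiniteMeasure pm] {m : ℝ → ℂ} (hm : BM m) :
    HasSum (fun i => ∫ p, m p * Bk ζ ε α (w i) p ∂pm) 0 := by
  have hζ := L.cont
  obtain ⟨Cz, hCz0, hCz⟩ := (zeta_bm L).bound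
  set R : ℝ := Cz + ε with hRdef
  have hR : ∀ t, ‖ζ t‖ + ε ≤ R := fun t => by
    have := hCz t
    linarith
  set B : Set ℂ := Metric.closedBall 0 R with hB
  set ν : Measure ℂ := (volume : Measure ℂ).restrict B with hν
  have fin : IsFiniteMeasure ν := by
    constructor
    rw [hν, Measure.restrict_apply_univ]
    exact (isCompact_closedBall _ _).measure_lt_top
  have bX : ∀ i, BM (fun q : ℝ × ℂ => XX ζ ε α (w i) q.1 q.2) := fun i => XX_bm L hε hα _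
  have bY : ∀ i, BM (fun q : ℝ × ℂ => YY ζ ε (w i) q.1 q.2) := fun i => YY_bm L hε _
  have bm1 : BM (fun q : ℝ × ℂ => m q.1) := hm.comp measurable_fst
  have bF : ∀ i, BM (fun q : ℝ × ℂ => m q.1 * (XX ζ ε α (w i) q.1 q.2
      * conj (YY ζ ε (w i) q.1 q.2))) := fun i => bm1.mul ((bX i).mul (bY i).conj)
  -- the bound
  set bA : ℝ × ℂ → ℝ := fun q => A * ∫ u in (0 : ℝ)..(1 / 4),
    ‖α (q.1 - u) * bmp ε (ζ (q.1 - u) - q.2)‖ ^ 2 with hbA
  set bB : ℝ × ℂ → ℝ := fun q => A * ∫ u in (0 : ℝ)..(1 / 4),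
    ‖bmp ε (ζ (q.1 + u) - q.2)‖ ^ 2 with hbB
  have hs : ∀ q : ℝ × ℂ, HasSum (fun i => XX ζ ε α (w i) q.1 q.2
      * conj (YY ζ ε (w i) q.1 q.2)) 0
      ∧ HasSum (fun i => ‖XX ζ ε α (w i) q.1 q.2‖ ^ 2) (bA q)
      ∧ HasSum (fun i => ‖YY ζ ε (w i) q.1 q.2‖ ^ 2) (bB q) := by
    intro q
    have hf : BM (fun t => α t * bmp ε (ζ t - q.2)) :=
      hα.mul ((bmp_bm hε).comp (u := fun t => ζ t - q.2) (by fun_prop))
    have hg : BM (fun t => bmp ε (ζ t - q.2)) :=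
      (bmp_bm hε).comp (u := fun t => ζ t - q.2) (by fun_prop)
    have h2 := h.two_sides L q.1 hf hg
    simp only [hbA, hbB]
    unfold XX YY
    exact h2
  have hbound : ∀ i, ∀ q : ℝ × ℂ, ‖m q.1 * (XX ζ ε α (w i) q.1 q.2
      * conj (YY ζ ε (w i) q.1 q.2))‖
      ≤ ‖m q.1‖ * ((‖XX ζ ε α (w i) q.1 q.2‖ ^ 2 + ‖YY ζ ε (w i) q.1 q.2‖ ^ 2) / 2) := by
    intro i q
    rw [norm_mul, norm_mul, RCLike.norm_conj]
    apply mul_le_mul_of_nonneg_left _ (norm_nonneg _)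
    nlinarith [sq_nonneg (‖XX ζ ε α (w i) q.1 q.2‖ - ‖YY ζ ε (w i) q.1 q.2‖)]
  have hbs : ∀ q : ℝ × ℂ, HasSum (fun i => ‖m q.1‖ *
      ((‖XX ζ ε α (w i) q.1 q.2‖ ^ 2 + ‖YY ζ ε (w i) q.1 q.2‖ ^ 2) / 2))
      (‖m q.1‖ * ((bA q + bB q) / 2)) := by
    intro q
    exact (((hs q).2.1.add (hs q).2.2).div_const 2).mul_left _
  have cA : BM (fun q : ℝ × ℂ => ((bA q : ℝ) : ℂ)) := by
    have h1 : BM (fun z : (ℝ × ℂ) × ℝ => α (z.1.1 - z.2) * bmp ε (ζ (z.1.1 - z.2) - z.1.2)) :=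
      (hα.comp (u := fun z : (ℝ × ℂ) × ℝ => z.1.1 - z.2) (by fun_prop)).mul
      ((bmp_bm hε).comp (u := fun z : (ℝ × ℂ) × ℝ => ζ (z.1.1 - z.2) - z.1.2) (by fun_prop))
    have h2 := BM.inner (F := fun (q : ℝ × ℂ) (u : ℝ) =>
      (α (q.1 - u) * bmp ε (ζ (q.1 - u) - q.2)) * conj (α (q.1 - u) * bmp ε (ζ (q.1 - u) - q.2)))
      (h1.mul h1.conj) 0 (1 / 4)
    have h3 := (BM.const (X := ℝ × ℂ) (A : ℂ)).mul h2
    have e : (fun q : ℝ × ℂ => ((bA q : ℝ) : ℂ)) = fun q : ℝ × ℂ => (A : ℂ) *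
        ∫ u in (0 : ℝ)..(1 / 4), (α (q.1 - u) * bmp ε (ζ (q.1 - u) - q.2))
          * conj (α (q.1 - u) * bmp ε (ζ (q.1 - u) - q.2)) := by
      funext q
      simp only [hbA]
      rw [Complex.ofReal_mul, ← intervalIntegral.integral_ofReal]
      congr 1
      apply intervalIntegral.integral_congr
      intro u _
      simp only
      rw [Complex.mul_conj, Complex.normSq_eq_norm_sq]
    rw [e]
    exact h3
  have cB : BM (fun q : ℝ × ℂ => ((bB q : ℝ) : ℂ)) := by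
    have h1 : BM (fun z : (ℝ × ℂ) × ℝ => bmp ε (ζ (z.1.1 + z.2) - z.1.2)) :=
      (bmp_bm hε).comp (u := fun z : (ℝ × ℂ) × ℝ => ζ (z.1.1 + z.2) - z.1.2) (by fun_prop)
    have h2 := BM.inner (F := fun (q : ℝ × ℂ) (u : ℝ) =>
      (bmp ε (ζ (q.1 + u) - q.2)) * conj (bmp ε (ζ (q.1 + u) - q.2)))
      (h1.mul h1.conj) 0 (1 / 4)
    have h3 := (BM.const (X := ℝ × ℂ) (A : ℂ)).mul h2
    have e : (fun q : ℝ × ℂ => ((bB q : ℝ) : ℂ)) = fun q : ℝ × ℂ => (A : ℂ) *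
        ∫ u in (0 : ℝ)..(1 / 4), (bmp ε (ζ (q.1 + u) - q.2))
          * conj (bmp ε (ζ (q.1 + u) - q.2)) := by
      funext q
      simp only [hbB]
      rw [Complex.ofReal_mul, ← intervalIntegral.integral_ofReal]
      congr 1
      apply intervalIntegral.integral_congr
      intro u _
      simp only
      rw [Complex.mul_conj, Complex.normSq_eq_norm_sq]
    rw [e]
    exact h3
  have hint : Integrable (fun q : ℝ × ℂ => ∑' i, ‖m q.1‖ *
      ((‖XX ζ ε α (w i) q.1 q.2‖ ^ 2 + ‖YY ζ ε (w i) q.1 q.2‖ ^ 2) / 2)) (pm.prod ν) := by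
    have e : (fun q : ℝ × ℂ => ∑' i, ‖m q.1‖ *
      ((‖XX ζ ε α (w i) q.1 q.2‖ ^ 2 + ‖YY ζ ε (w i) q.1 q.2‖ ^ 2) / 2))
      = fun q => ‖m q.1‖ * ((bA q + bB q) / 2) := by
      funext q; exact (hbs q).tsum_eq
    rw [e]
    have hn : BM (fun q : ℝ × ℂ => m q.1 * (((bA q : ℝ) : ℂ) + ((bB q : ℝ) : ℂ))) :=
      bm1.mul (cA.add cB)
    have hi := (hn.integrable (pm.prod ν)).norm.div_const 2
    refine hi.mono' ?_ ?_
    · have m1 : Measurable bA := by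
        have := Complex.measurable_re.comp cA.1
        simpa [Function.comp_def] using this
      have m2 : Measurable bB := by
        have := Complex.measurable_re.comp cB.1
        simpa [Function.comp_def] using this
      exact (bm1.1.norm.mul ((m1.add m2).div_const 2)).aestronglyMeasurable
    · refine Filter.Eventually.of_forall fun q => ?_
      rw [norm_mul, norm_norm, norm_mul, norm_div, ← Complex.ofReal_add, Complex.norm_real]
      simp only [Real.norm_ofNat]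
      rw [mul_div_assoc]
  have key := hasSum_integral_of_dominated_convergence (μ := pm.prod ν)
    (F := fun i (q : ℝ × ℂ) => m q.1 * (XX ζ ε α (w i) q.1 q.2 * conj (YY ζ ε (w i) q.1 q.2)))
    (f := fun _ => 0)
    (fun i (q : ℝ × ℂ) => ‖m q.1‖ *
      ((‖XX ζ ε α (w i) q.1 q.2‖ ^ 2 + ‖YY ζ ε (w i) q.1 q.2‖ ^ 2) / 2))
    (fun i => (bF i).1.aestronglyMeasurable)
    (fun i => Filter.Eventually.of_forall (hbound i))
    (Filter.Eventually.of_forall fun q => (hbs q).summable)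
    hint
    (Filter.Eventually.of_forall fun q => by
      have := (hs q).1.mul_left (m q.1)
      simpa using this)
  simp only [integral_zero] at key
  have e : ∀ i, (∫ q, m q.1 * (XX ζ ε α (w i) q.1 q.2 * conj (YY ζ ε (w i) q.1 q.2)) ∂(pm.prod ν))
      = ∫ p, m p * Bk ζ ε α (w i) p ∂pm := by
    intro i
    rw [integral_prod _ ((bF i).integrable _)]
    congr 1
    funext p
    simp only
    rw [integral_const_mul, Bk_eq L hε hα (w i) p hR]
  simp only [e] at key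
  exact key

end Pool.Agent.Q83.Curve
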