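import Pool.Agent.Q83.Curve.Stokes

open MeasureTheory Complex Set
open scoped Real ComplexConjugate

namespace Pool.Agent.Q83.Curve

lemma hasDerivAt_glue {E : Type*} [NormedAddCommGroup E] [NormedSpace ℝ E] {f g h : ℝ → E}
    {a : ℝ} {f' : E} (hf : HasDerivAt f f' a) (hg : HasDerivAt g f' a)
    (h1 : ∀ x, x ≤ a → h x = f x) (h2 : ∀ x, a ≤ x → h x = g x) : HasDerivAt h f' a := by
  have e1 : HasDerivWithinAt h f' (Iic a) a :=
    hf.hasDerivWithinAt.congr (fun x hx => h1 x hx) (h1 a le_rfl)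
  have e2 : HasDerivWithinAt h f' (Ici a) a :=
    hg.hasDerivWithinAt.congr (fun x hx => h2 x hx) (h2 a le_rfl)
  have := e1.union e2
  rw [Iic_union_Ici] at this
  exact this.hasDerivAt Filter.univ_mem

lemma hasDerivAt_maxsq (z : ℝ) : HasDerivAt (fun z : ℝ => (max 0 z) ^ 2) (2 * max 0 z) z := by
  rcases lt_trichotomy z 0 with h | h | h
  · rw [max_eq_left h.le]
    have : (fun z : ℝ => (max 0 z) ^ 2) =ᶠ[nhds z] fun _ => 0 := by
      filter_upwards [eventually_lt_nhds h] with y hy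
      rw [max_eq_left hy.le]
      norm_num
    rw [mul_zero]
    exact (hasDerivAt_const z (0 : ℝ)).congr_of_eventuallyEq this
  · subst h
    rw [max_self, mul_zero]
    apply hasDerivAt_glue (f := fun _ => (0 : ℝ)) (g := fun z : ℝ => z ^ 2)
      (hasDerivAt_const _ _)
    · simpa using hasDerivAt_pow 2 (0 : ℝ)
    · intro x hx
      rw [max_eq_left hx]
      norm_num
    · intro x hx
      rw [max_eq_right hx]
  · rw [max_eq_right h.le]
    have : (fun z : ℝ => (max 0 z) ^ 2) =ᶠ[nhds z] fun z => z ^ 2 := by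
      filter_upwards [eventually_gt_nhds h] with y hy
      rw [max_eq_right hy.le]
    have h2 := (hasDerivAt_pow 2 z).congr_of_eventuallyEq this
    simpa using h2

/-- The radial bump. -/
noncomputable def bmp (ρ : ℝ) (x : ℂ) : ℂ :=
  (((max 0 (1 - (x.re ^ 2 + x.im ^ 2) / ρ ^ 2)) ^ 2 : ℝ) : ℂ)

noncomputable def bmp1 (ρ : ℝ) (x : ℂ) : ℂ :=
  ((2 * max 0 (1 - (x.re ^ 2 + x.im ^ 2) / ρ ^ 2) * (-(2 * x.re) / ρ ^ 2) : ℝ) : ℂ)

noncomputable def bmp2 (ρ : ℝ) (x : ℂ) : ℂ :=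
  ((2 * max 0 (1 - (x.re ^ 2 + x.im ^ 2) / ρ ^ 2) * (-(2 * x.im) / ρ ^ 2) : ℝ) : ℂ)

lemma nsq_ge {ρ : ℝ} (hρ : 0 < ρ) {x : ℂ} (hx : ρ ≤ ‖x‖) : ρ ^ 2 ≤ x.re ^ 2 + x.im ^ 2 := by
  have h := pow_le_pow_left₀ hρ.le hx 2
  rw [← Complex.normSq_eq_norm_sq, Complex.normSq_apply] at h
  linarith

lemma max_out {ρ : ℝ} (hρ : 0 < ρ) {x : ℂ} (hx : ρ ≤ ‖x‖) :
    max 0 (1 - (x.re ^ 2 + x.im ^ 2) / ρ ^ 2) = 0 := by
  apply max_eq_left
  have h1 := nsq_ge hρ hx
  have h2 : 1 ≤ (x.re ^ 2 + x.im ^ 2) / ρ ^ 2 := by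
    rw [le_div_iff₀ (by positivity)]
    linarith
  linarith

lemma bmp_C1 {ρ : ℝ} (hρ : 0 < ρ) : C1 (bmp ρ) (bmp1 ρ) (bmp2 ρ) ρ := by
  refine ⟨fun x => ?_, ?_, ?_, fun x hx => ?_, fun x hx => ?_, fun x hx => ?_⟩
  · have hre : HasFDerivAt (fun x : ℂ => x.re) Complex.reCLM x := Complex.reCLM.hasFDerivAt
    have him : HasFDerivAt (fun x : ℂ => x.im) Complex.imCLM x := Complex.imCLM.hasFDerivAt
    have h1 := ((hre.pow 2).add (him.pow 2))
    have h2 := (h1.mul_const ((ρ ^ 2)⁻¹)).const_sub 1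
    have h3 := (hasDerivAt_maxsq (1 - (x.re ^ 2 + x.im ^ 2) * (ρ ^ 2)⁻¹)).comp_hasFDerivAt x h2
    have h4 := Complex.ofRealCLM.hasFDerivAt.comp x h3
    refine (h4.congr_fderiv ?_).congr_of_eventuallyEq ?_
    · apply ContinuousLinearMap.ext
      intro z
      simp [bmp1, bmp2]
      ring
    · apply Filter.Eventually.of_forall
      intro y
      simp [bmp, div_eq_mul_inv]
  · unfold bmp1; fun_prop
  · unfold bmp2; fun_prop
  · simp only [bmp]; rw [max_out hρ hx]; simp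
  · simp only [bmp1]; rw [max_out hρ hx]; simp
  · simp only [bmp2]; rw [max_out hρ hx]; simp

/-- The radial potential and its derivative. -/
noncomputable def Bf (ρ u : ℝ) : ℝ :=
  if u ≤ ρ ^ 2 then (3 - 3 * u / ρ ^ 2 + u ^ 2 / ρ ^ 4) / 6 else ρ ^ 2 / 6 / u

noncomputable def Bd (ρ u : ℝ) : ℝ :=
  if u ≤ ρ ^ 2 then (-3 / ρ ^ 2 + 2 * u / ρ ^ 4) / 6 else -(ρ ^ 2 / 6) / u ^ 2

lemma Bf_deriv {ρ : ℝ} (hρ : 0 < ρ) (u : ℝ) : HasDerivAt (Bf ρ) (Bd ρ u) u := by
  have hpoly : ∀ u : ℝ, HasDerivAt (fun u : ℝ => (3 - 3 * u / ρ ^ 2 + u ^ 2 / ρ ^ 4) / 6)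
      ((-3 / ρ ^ 2 + 2 * u / ρ ^ 4) / 6) u := by
    intro u
    have h1 := (((hasDerivAt_id u).const_mul 3).div_const (ρ ^ 2)).const_sub 3
    have h2 := (hasDerivAt_pow 2 u).div_const (ρ ^ 4)
    have h3 := (h1.add h2).div_const 6
    refine (h3.congr_deriv ?_).congr_of_eventuallyEq ?_
    · simp; ring
    · exact Filter.Eventually.of_forall fun y => by simp
  have hinv : ∀ u : ℝ, u ≠ 0 → HasDerivAt (fun u : ℝ => ρ ^ 2 / 6 / u)
      (-(ρ ^ 2 / 6) / u ^ 2) u := by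
    intro u hu
    have h1 := (hasDerivAt_inv hu).const_mul (ρ ^ 2 / 6)
    refine (h1.congr_deriv ?_).congr_of_eventuallyEq ?_
    · ring
    · exact Filter.Eventually.of_forall fun y => by simp [div_eq_mul_inv]
  rcases lt_trichotomy u (ρ ^ 2) with h | h | h
  · have e : Bf ρ =ᶠ[nhds u] fun u : ℝ => (3 - 3 * u / ρ ^ 2 + u ^ 2 / ρ ^ 4) / 6 := by
      filter_upwards [eventually_lt_nhds h] with y hy
      simp [Bf, hy.le]
    have := (hpoly u).congr_of_eventuallyEq e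
    simpa [Bd, h.le] using this
  · have hu : u ≠ 0 := by rw [h]; positivity
    have hval : Bd ρ u = (-3 / ρ ^ 2 + 2 * u / ρ ^ 4) / 6 := by simp [Bd, h.le]
    have hval2 : (-3 / ρ ^ 2 + 2 * u / ρ ^ 4) / 6 = -(ρ ^ 2 / 6) / u ^ 2 := by
      rw [h]; field_simp; norm_num
    apply hasDerivAt_glue (f := fun u : ℝ => (3 - 3 * u / ρ ^ 2 + u ^ 2 / ρ ^ 4) / 6)
      (g := fun u : ℝ => ρ ^ 2 / 6 / u)
    · rw [hval]; exact hpoly u
    · rw [hval, hval2]; exact hinv u hu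
    · intro x hx
      simp [Bf, hx.trans h.le]
    · intro x hx
      rcases eq_or_lt_of_le hx with h2 | h2
      · rw [← h2, h]
        simp only [Bf, le_refl, if_true]
        field_simp
        norm_num
      · have : ¬ x ≤ ρ ^ 2 := by rw [← h]; exact not_le.2 h2
        simp [Bf, this]
  · have e : Bf ρ =ᶠ[nhds u] fun u : ℝ => ρ ^ 2 / 6 / u := by
      filter_upwards [eventually_gt_nhds h] with y hy
      simp [Bf, not_le.2 hy]
    have hu : u ≠ 0 := by
      have : 0 < ρ ^ 2 := by positivity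
      linarith
    have := (hinv u hu).congr_of_eventuallyEq e
    simpa [Bd, not_le.2 h] using this

lemma Bf_id {ρ : ℝ} (hρ : 0 < ρ) (u : ℝ) :
    2 * Bd ρ u * u + 2 * Bf ρ u = (max 0 (1 - u / ρ ^ 2)) ^ 2 := by
  by_cases h : u ≤ ρ ^ 2
  · have h2 : 0 ≤ 1 - u / ρ ^ 2 := by
      have : u / ρ ^ 2 ≤ 1 := by rw [div_le_one (by positivity)]; exact h
      linarith
    rw [max_eq_right h2]
    simp only [Bd, Bf, h, if_true]
    field_simp
    ring
  · have h0 : 0 < u := by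
      have : 0 < ρ ^ 2 := by positivity
      push Not at h
      linarith
    have h2 : 1 - u / ρ ^ 2 ≤ 0 := by
      have : 1 ≤ u / ρ ^ 2 := by rw [le_div_iff₀ (by positivity)]; linarith
      linarith
    rw [max_eq_left h2]
    simp only [Bd, Bf, h, if_false]
    field_simp
    ring

/-- squared norm -/
noncomputable def nsq (x : ℂ) : ℝ := x.re ^ 2 + x.im ^ 2

lemma nsq_eq (x : ℂ) : nsq x = ‖x‖ ^ 2 := by
  rw [← Complex.normSq_eq_norm_sq, Complex.normSq_apply, nsq]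
  ring

lemma Bf_meas (ρ : ℝ) : Measurable (Bf ρ) := by
  unfold Bf
  exact Measurable.ite measurableSet_Iic (by fun_prop) (by fun_prop)

lemma Bd_meas (ρ : ℝ) : Measurable (Bd ρ) := by
  unfold Bd
  exact Measurable.ite measurableSet_Iic (by fun_prop) (by fun_prop)

lemma Bf_bdd {ρ : ℝ} (hρ : 0 < ρ) (u : ℝ) (hu : 0 ≤ u) : |Bf ρ u| ≤ 2 := by
  unfold Bf
  split_ifs with h
  · have h1 : u / ρ ^ 2 ≤ 1 := by rw [div_le_one (by positivity)]; exact h
    have h0 : 0 ≤ u / ρ ^ 2 := by positivity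
    have e : (3 - 3 * u / ρ ^ 2 + u ^ 2 / ρ ^ 4) / 6
        = (3 - 3 * (u / ρ ^ 2) + (u / ρ ^ 2) ^ 2) / 6 := by
      rw [div_pow]; ring
    rw [e, abs_le]
    constructor <;> nlinarith
  · push Not at h
    have hu' : 0 < u := lt_trans (by positivity) h
    have : ρ ^ 2 / 6 / u ≤ 1 := by
      rw [div_le_one hu']
      have : 0 < ρ ^ 2 := by positivity
      linarith
    have h0 : 0 ≤ ρ ^ 2 / 6 / u := by positivity
    rw [abs_of_nonneg h0]
    linarith

lemma Bd_bdd {ρ : ℝ} (hρ : 0 < ρ) (u : ℝ) (hu : 0 ≤ u) : |Bd ρ u| ≤ 1 / ρ ^ 2 := by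
  unfold Bd
  split_ifs with h
  · have h1 : u / ρ ^ 2 ≤ 1 := by rw [div_le_one (by positivity)]; exact h
    have h0 : 0 ≤ u / ρ ^ 2 := by positivity
    have e : (-3 / ρ ^ 2 + 2 * u / ρ ^ 4) / 6
        = (1 / ρ ^ 2) * ((-3 + 2 * (u / ρ ^ 2)) / 6) := by
      field_simp
    have hp : 0 < 1 / ρ ^ 2 := by positivity
    rw [e, abs_mul, abs_of_pos hp]
    have : |(-3 + 2 * (u / ρ ^ 2)) / 6| ≤ 1 := by
      rw [abs_le]; constructor <;> nlinarith
    nlinarith
  · push Not at h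
    have hρ2 : 0 < ρ ^ 2 := by positivity
    have hu' : 0 < u := lt_trans hρ2 h
    rw [abs_div, abs_neg, abs_of_pos (by positivity), abs_of_pos (by positivity),
      div_le_div_iff₀ (by positivity) hρ2]
    nlinarith

lemma bm_Bf {ρ : ℝ} (hρ : 0 < ρ) : BM fun x : ℂ => ((Bf ρ (nsq x) : ℝ) : ℂ) := by
  refine ⟨Complex.measurable_ofReal.comp ((Bf_meas ρ).comp (by unfold nsq; fun_prop)), 2,
    fun x => ?_⟩
  rw [Complex.norm_real, Real.norm_eq_abs]
  exact Bf_bdd hρ _ (by unfold nsq; positivity)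

lemma bm_Bd {ρ : ℝ} (hρ : 0 < ρ) : BM fun x : ℂ => ((Bd ρ (nsq x) : ℝ) : ℂ) := by
  refine ⟨Complex.measurable_ofReal.comp ((Bd_meas ρ).comp (by unfold nsq; fun_prop)),
    1 / ρ ^ 2, fun x => ?_⟩
  rw [Complex.norm_real, Real.norm_eq_abs]
  exact Bd_bdd hρ _ (by unfold nsq; positivity)

lemma Bf_cont {ρ : ℝ} (hρ : 0 < ρ) : Continuous (Bf ρ) :=
  continuous_iff_continuousAt.2 fun u => (Bf_deriv hρ u).continuousAt

lemma cr_add_left (a b c : ℂ) : cr (a + b) c = cr a c + cr b c := by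
  simp only [cr, Complex.add_re, Complex.add_im]; push_cast; ring

/-- derivative of the radial one-form along a curve -/
lemma form_deriv {ρ : ℝ} (hρ : 0 < ρ) {x : ℝ → ℂ} {x' : ℂ} {t : ℝ} (hx : HasDerivAt x x' t)
    (a : ℂ) :
    HasDerivAt (fun t => ((Bf ρ (nsq (x t)) : ℝ) : ℂ) * cr (x t) a)
      (((Bd ρ (nsq (x t)) : ℝ) : ℂ) * ((2 * ((x t).re * x'.re + (x t).im * x'.im) : ℝ) : ℂ)
        * cr (x t) a + ((Bf ρ (nsq (x t)) : ℝ) : ℂ) * cr x' a) t := by
  have hre : HasDerivAt (fun t => (x t).re) x'.re t := by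
    have := Complex.reCLM.hasFDerivAt.comp_hasDerivAt t hx
    simpa [Function.comp_def] using this
  have him : HasDerivAt (fun t => (x t).im) x'.im t := by
    have := Complex.imCLM.hasFDerivAt.comp_hasDerivAt t hx
    simpa [Function.comp_def] using this
  have hn : HasDerivAt (fun t => nsq (x t)) (2 * ((x t).re * x'.re + (x t).im * x'.im)) t := by
    have := (hre.pow 2).add (him.pow 2)
    refine (this.congr_deriv ?_)
    simp; ring
  have hB := ((Bf_deriv hρ (nsq (x t))).comp t hn).ofReal_comp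
  have hc : HasDerivAt (fun t => cr (x t) a) (cr x' a) t := by
    have := ((hre.mul_const a.im).sub (him.mul_const a.re)).ofReal_comp
    exact this
  have h := hB.mul hc
  refine (h.congr_deriv ?_)
  simp only [Function.comp_def]
  push_cast
  ring

variable {ζ T : ℝ → ℂ} {S : Set ℝ} {r : ℝ}

/-- The chord to the half-period point. -/
noncomputable def ch (ζ : ℝ → ℂ) (s : ℝ) : ℂ := ζ (s + 1 / 2) - ζ s

lemma ch_anti (L : Loop ζ T S r) (s : ℝ) : ch ζ (s + 1 / 2) = - ch ζ s := by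
  unfold ch
  rw [show s + 1 / 2 + 1 / 2 = s + 1 by ring, L.per s]
  ring

lemma ch_ne (L : Loop ζ T S r) (s : ℝ) : ch ζ s ≠ 0 := by
  have := half_ne L s
  have h2 := L.rpos
  intro h
  unfold ch at h
  rw [h, norm_zero] at this
  linarith

lemma IF_bmp_form (L : Loop ζ T S r) {ρ : ℝ} (hρ : 0 < ρ) (hρr : ρ ≤ r) :
    IF ζ T (bmp ρ)
      = ∫ s in (0 : ℝ)..1, ((Bf ρ (nsq (ch ζ s)) : ℝ) : ℂ) * cr (ch ζ s) (T (s + 1 / 2) - T s) := by
  have hζ := L.cont
  set P : ℝ → ℝ → ℂ := fun s t =>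
    ((Bd ρ (nsq (ζ t - ζ s)) : ℝ) : ℂ)
        * ((2 * ((ζ t - ζ s).re * (T t).re + (ζ t - ζ s).im * (T t).im) : ℝ) : ℂ)
        * cr (ζ t - ζ s) (T s) + ((Bf ρ (nsq (ζ t - ζ s)) : ℝ) : ℂ) * cr (T t) (T s) with hP
  set Q : ℝ → ℝ → ℂ := fun s t =>
    ((Bd ρ (nsq (ζ t - ζ s)) : ℝ) : ℂ)
        * ((2 * ((ζ t - ζ s).re * (T s).re + (ζ t - ζ s).im * (T s).im) : ℝ) : ℂ)
        * cr (ζ t - ζ s) (T t) + ((Bf ρ (nsq (ζ t - ζ s)) : ℝ) : ℂ) * cr (T s) (T t) with hQ
  have bζ : BM fun p : ℝ × ℝ => ζ p.2 - ζ p.1 := by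
    have hb : BM ζ := by
      refine ⟨hζ.measurable, ?_⟩
      obtain ⟨C, hC⟩ := (isCompact_Icc (a := (0 : ℝ)) (b := 1)).exists_bound_of_continuousOn
        hζ.continuousOn
      refine ⟨C, fun t => ?_⟩
      obtain ⟨y, hy, hty⟩ := L.per.exists_mem_Ico₀ one_pos t
      rw [hty]
      exact hC y ⟨hy.1, hy.2.le⟩
    exact (hb.comp measurable_snd).sub (hb.comp measurable_fst)
  have bT1 : BM fun p : ℝ × ℝ => T p.1 := L.Tbm.comp measurable_fst
  have bT2 : BM fun p : ℝ × ℝ => T p.2 := L.Tbm.comp measurable_snd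
  have bB : BM fun p : ℝ × ℝ => ((Bf ρ (nsq (ζ p.2 - ζ p.1)) : ℝ) : ℂ) :=
    (bm_Bf hρ).comp bζ.1
  have bD : BM fun p : ℝ × ℝ => ((Bd ρ (nsq (ζ p.2 - ζ p.1)) : ℝ) : ℂ) :=
    (bm_Bd hρ).comp bζ.1
  have bip : ∀ {f : ℝ × ℝ → ℂ}, BM f → BM fun p : ℝ × ℝ =>
      ((2 * ((ζ p.2 - ζ p.1).re * (f p).re + (ζ p.2 - ζ p.1).im * (f p).im) : ℝ) : ℂ) := by
    intro f hf
    have h := (BM.const (X := ℝ × ℝ) 2).mul ((bζ.re.mul hf.re).add (bζ.im.mul hf.im))
    have e : (fun p : ℝ × ℝ =>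
        ((2 * ((ζ p.2 - ζ p.1).re * (f p).re + (ζ p.2 - ζ p.1).im * (f p).im) : ℝ) : ℂ))
        = fun p : ℝ × ℝ => (2 : ℂ) * ((((ζ p.2 - ζ p.1).re : ℝ) : ℂ) * (((f p).re : ℝ) : ℂ)
          + (((ζ p.2 - ζ p.1).im : ℝ) : ℂ) * (((f p).im : ℝ) : ℂ)) := by
      funext p
      push_cast
      ring
    rw [e]
    exact h
  have bP : BM (Function.uncurry P) :=
    ((bD.mul (bip bT2)).mul (bm_cr bζ bT1)).add (bB.mul (bm_cr bT2 bT1))
  have bQ : BM (Function.uncurry Q) :=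
    ((bD.mul (bip bT1)).mul (bm_cr bζ bT2)).add (bB.mul (bm_cr bT1 bT2))
  have bP' : BM (Function.uncurry fun s τ : ℝ => P s (s + τ)) :=
    bP.comp (u := fun p : ℝ × ℝ => (p.1, p.1 + p.2)) (by fun_prop)
  have bQ' : BM (Function.uncurry fun s τ : ℝ => Q s (s + τ)) :=
    bQ.comp (u := fun p : ℝ × ℝ => (p.1, p.1 + p.2)) (by fun_prop)
  have split : IF ζ T (bmp ρ)
      = (∫ s in (0 : ℝ)..1, ∫ τ in (0 : ℝ)..(1 / 2), Q s (s + τ))
        - ∫ s in (0 : ℝ)..1, ∫ τ in (0 : ℝ)..(1 / 2), P s (s + τ) := by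
    unfold IF
    rw [← intervalIntegral.integral_sub ((bQ'.inner _ _).ii _ _) ((bP'.inner _ _).ii _ _)]
    apply intervalIntegral.integral_congr
    intro s _
    simp only
    rw [← intervalIntegral.integral_sub]
    · apply intervalIntegral.integral_congr
      intro τ _
      simp only [hP, hQ, bmp]
      generalize ζ (s + τ) - ζ s = x
      generalize T (s + τ) = b
      generalize T s = a
      have := Bf_id hρ (x.re ^ 2 + x.im ^ 2)
      rw [← this]
      simp only [cr, nsq]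
      push_cast
      ring
    · exact (bQ'.comp (u := fun τ : ℝ => (s, τ)) (by fun_prop)).ii _ _
    · exact (bP'.comp (u := fun τ : ℝ => (s, τ)) (by fun_prop)).ii _ _
  have hBc := Bf_cont hρ
  have crc : ∀ a : ℂ, Continuous fun x : ℂ => cr x a := by
    intro a; unfold cr; fun_prop
  have nsqc : Continuous nsq := by unfold nsq; fun_prop
  have e1 : ∫ s in (0 : ℝ)..1, ∫ τ in (0 : ℝ)..(1 / 2), Q s (s + τ)
      = ∫ t in (0 : ℝ)..1, ((Bf ρ (nsq (ch ζ t)) : ℝ) : ℂ) * cr (ch ζ t) (T (t + 1 / 2)) := by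
    rw [shift_two bQ]
    · have : ∀ t, ∫ τ in (0 : ℝ)..(1 / 2), Q (t - τ) t
          = ((Bf ρ (nsq (ch ζ (t - 1 / 2))) : ℝ) : ℂ) * cr (ch ζ (t - 1 / 2)) (T t) := by
        intro t
        simp only [hQ]
        rw [integral_eq_of_hasDerivAt_off_countable
          (fun τ => ((Bf ρ (nsq (ζ t - ζ (t - τ))) : ℝ) : ℂ) * cr (ζ t - ζ (t - τ)) (T t))
          _ (cnt_shift' L t)]
        · simp [ch, cr]
        · have := crc (T t)
          fun_prop
        · intro τ hτ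
          have hd : HasDerivAt (fun τ => ζ t - ζ (t - τ)) (T (t - τ)) τ := by
            have h1 := (L.der (t - τ) hτ.2).scomp τ ((hasDerivAt_id τ).const_sub t)
            have h2 := h1.const_sub (ζ t)
            simpa [Function.comp_def] using h2
          exact form_deriv hρ hd (T t)
        · exact (bQ.comp (u := fun τ : ℝ => (t - τ, t)) (by fun_prop)).ii _ _
      simp only [this]
      have hper : Function.Periodic (fun t => ((Bf ρ (nsq (ch ζ t)) : ℝ) : ℂ)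
          * cr (ch ζ t) (T (t + 1 / 2))) 1 := by
        intro t
        simp only [ch]
        rw [show t + 1 + 1 / 2 = t + 1 / 2 + 1 by ring, L.per, L.per, L.Tper]
      have := shift_one hper (1 / 2)
      simp only [sub_add_cancel] at this
      exact this
    · intro s t
      simp only [hQ, L.per s, L.per t, L.Tper s, L.Tper t]
  have e2 : ∫ s in (0 : ℝ)..1, ∫ τ in (0 : ℝ)..(1 / 2), P s (s + τ)
      = ∫ s in (0 : ℝ)..1, ((Bf ρ (nsq (ch ζ s)) : ℝ) : ℂ) * cr (ch ζ s) (T s) := by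
    apply intervalIntegral.integral_congr
    intro s _
    simp only [hP]
    rw [integral_eq_of_hasDerivAt_off_countable
      (fun τ => ((Bf ρ (nsq (ζ (s + τ) - ζ s)) : ℝ) : ℂ) * cr (ζ (s + τ) - ζ s) (T s))
      _ (cnt_shift L s)]
    · simp [ch, cr]
    · have := crc (T s)
      fun_prop
    · intro τ hτ
      have hd : HasDerivAt (fun τ => ζ (s + τ) - ζ s) (T (s + τ)) τ := by
        have h1 := (L.der (s + τ) hτ.2).scomp τ ((hasDerivAt_id τ).const_add s)
        have h2 := h1.sub_const (ζ s)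
        simpa [Function.comp_def] using h2
      exact form_deriv hρ hd (T s)
    · exact (bP.comp (u := fun τ : ℝ => (s, s + τ)) (by fun_prop)).ii _ _
  rw [split, e1, e2, ← intervalIntegral.integral_sub]
  · apply intervalIntegral.integral_congr
    intro s _
    simp only [cr, Complex.sub_re, Complex.sub_im]
    push_cast
    ring
  · exact ((bB.mul (bm_cr bζ bT2)).comp (u := fun s : ℝ => (s, s + 1 / 2)) (by fun_prop)).ii _ _
  · exact ((bB.mul (bm_cr bζ bT1)).comp (u := fun s : ℝ => (s, s + 1 / 2)) (by fun_prop)).ii _ _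

/-- logarithmic derivative of the chord -/
noncomputable def ld (ζ T : ℝ → ℂ) (s : ℝ) : ℂ := (T (s + 1 / 2) - T s) / ch ζ s

lemma ld_bm (L : Loop ζ T S r) : BM (ld ζ T) := by
  have hζ := L.cont
  obtain ⟨C, hC0, hC⟩ := L.Tbm.bound
  refine ⟨?_, (C + C) / r, fun s => ?_⟩
  · unfold ld ch
    have := L.Tbm.1
    fun_prop
  · unfold ld
    rw [norm_div]
    apply div_le_div₀ (by positivity) ((norm_sub_le _ _).trans (add_le_add (hC _) (hC _)))
      L.rpos (half_ne L s)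

lemma ld_per (L : Loop ζ T S r) : Function.Periodic (ld ζ T) (1 / 2) := by
  intro s
  unfold ld
  rw [ch_anti L, show s + 1 / 2 + 1 / 2 = s + 1 by ring, L.Tper s, ← neg_sub, neg_div_neg_eq]

lemma ch_deriv (L : Loop ζ T S r) {s : ℝ} (h1 : s ∉ S) (h2 : s + 1 / 2 ∉ S) :
    HasDerivAt (ch ζ) (T (s + 1 / 2) - T s) s := by
  have a1 := (L.der (s + 1 / 2) h2).scomp s ((hasDerivAt_id s).add_const (1 / 2))
  have a2 := a1.sub (L.der s h1)
  simp only [one_smul] at a2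
  exact a2

lemma exp_ld (L : Loop ζ T S r) : Complex.exp (∫ s in (0 : ℝ)..(1 / 2), ld ζ T s) = -1 := by
  have hζ := L.cont
  have hbm := ld_bm L
  set W : ℝ → ℂ := fun s => ch ζ s * Complex.exp (- ∫ u in (0 : ℝ)..s, ld ζ T u) with hW
  have hcount : {s : ℝ | s ∈ S ∨ s + 1 / 2 ∈ S}.Countable := by
    have h2 : {s : ℝ | s + 1 / 2 ∈ S}.Countable := L.cnt.preimage (add_left_injective (1 / 2))
    exact L.cnt.union h2
  have hint : Continuous fun s => ∫ u in (0 : ℝ)..s, ld ζ T u :=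
    intervalIntegral.continuous_primitive (fun a b => hbm.ii a b) 0
  have hch : Continuous (ch ζ) := by unfold ch; fun_prop
  have h := integral_eq_of_hasDerivAt_off_countable (a := 0) (b := 1 / 2) W (fun _ => 0) hcount
    (by simp only [hW]; fun_prop) (by
      intro s hs
      have hs1 : s ∉ S := fun h => hs.2 (Or.inl h)
      have hs2 : s + 1 / 2 ∉ S := fun h => hs.2 (Or.inr h)
      have d1 := ch_deriv L hs1 hs2
      have cT : ContinuousAt (ld ζ T) s := by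
        unfold ld
        have c2 : ContinuousAt (fun s : ℝ => T (s + 1 / 2)) s :=
          ContinuousAt.comp (f := fun s : ℝ => s + 1 / 2) (g := T) (L.Tcont _ hs2) (by fun_prop)
        exact (c2.sub (L.Tcont _ hs1)).div hch.continuousAt (ch_ne L s)
      have d2 : HasDerivAt (fun s => ∫ u in (0 : ℝ)..s, ld ζ T u) (ld ζ T s) s :=
        intervalIntegral.integral_hasDerivAt_right (hbm.ii _ _)
          (hbm.1.stronglyMeasurable.stronglyMeasurableAtFilter) cT
      have d3 := d1.mul d2.neg.cexp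
      refine d3.congr_deriv ?_
      unfold ld
      field_simp [ch_ne L s]
      ring) (by simp)
  simp only [intervalIntegral.integral_zero] at h
  have h1 : W (1 / 2) = W 0 := (sub_eq_zero.1 h.symm)
  simp only [hW, intervalIntegral.integral_same, neg_zero, Complex.exp_zero, mul_one] at h1
  have h2 := ch_anti L 0
  rw [zero_add] at h2
  rw [h2] at h1
  have h3 := ch_ne L 0
  rw [Complex.exp_neg] at h1
  have h4 := Complex.exp_ne_zero (∫ s in (0 : ℝ)..(1 / 2), ld ζ T s)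
  field_simp at h1
  rw [← h1]

lemma im_ne {z : ℂ} (h : Complex.exp z = -1) : z.im ≠ 0 := by
  intro h0
  have : z = (z.re : ℂ) := by
    apply Complex.ext <;> simp [h0]
  rw [this, ← Complex.ofReal_exp] at h
  have h2 : Real.exp z.re = -1 := by exact_mod_cast h
  have := Real.exp_pos z.re
  linarith

/-- The functional does not vanish on the bump. -/
lemma IF_bmp_ne (L : Loop ζ T S r) {ρ : ℝ} (hρ : 0 < ρ) (hρr : ρ ≤ r) :
    IF ζ T (bmp ρ) ≠ 0 := by
  rw [IF_bmp_form L hρ hρr]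
  have hbm := ld_bm L
  have e : ∀ s : ℝ, ((Bf ρ (nsq (ch ζ s)) : ℝ) : ℂ) * cr (ch ζ s) (T (s + 1 / 2) - T s)
      = ((ρ ^ 2 / 6 * (ld ζ T s).im : ℝ) : ℂ) := by
    intro s
    have hn : ρ ^ 2 ≤ nsq (ch ζ s) := nsq_ge hρ (hρr.trans (half_ne L s))
    have hpos : 0 < nsq (ch ζ s) := lt_of_lt_of_le (by positivity) hn
    have hB : Bf ρ (nsq (ch ζ s)) = ρ ^ 2 / 6 / nsq (ch ζ s) := by
      unfold Bf
      split_ifs with h
      · have : nsq (ch ζ s) = ρ ^ 2 := le_antisymm h hn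
        rw [this]
        field_simp
        norm_num
      · rfl
    rw [hB]
    unfold cr
    rw [← Complex.ofReal_mul]
    congr 1
    unfold ld
    rw [Complex.div_im]
    have hns : Complex.normSq (ch ζ s) = nsq (ch ζ s) := by
      rw [Complex.normSq_apply, nsq]; ring
    rw [hns]
    field_simp
  simp only [e]
  rw [intervalIntegral.integral_ofReal]
  have him : ∫ s in (0 : ℝ)..1, (ld ζ T s).im = (∫ s in (0 : ℝ)..1, ld ζ T s).im := by
    have := Complex.imCLM.intervalIntegral_comp_comm (hbm.ii 0 1)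
    simpa using this
  have hsplit : ∫ s in (0 : ℝ)..1, ld ζ T s = 2 * ∫ s in (0 : ℝ)..(1 / 2), ld ζ T s := by
    rw [← intervalIntegral.integral_add_adjacent_intervals (hbm.ii 0 (1 / 2)) (hbm.ii (1 / 2) 1)]
    have := (ld_per L).intervalIntegral_add_eq (1 / 2) 0
    rw [show (1 / 2 : ℝ) + 1 / 2 = 1 by norm_num, zero_add] at this
    rw [this]
    ring
  rw [intervalIntegral.integral_const_mul, him, hsplit]
  have h1 := im_ne (exp_ld L)
  have h2 : (2 * ∫ s in (0 : ℝ)..(1 / 2), ld ζ T s).im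
      = 2 * (∫ s in (0 : ℝ)..(1 / 2), ld ζ T s).im := by
    simp [Complex.mul_im]
  rw [h2]
  exact_mod_cast mul_ne_zero (by positivity) (mul_ne_zero two_ne_zero h1)

end Pool.Agent.Q83.Curve
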